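import Pool.Agent.Lib.MP_bc213e_ag.Seq

namespace Pool.Agent.Lib.MP_bc213e_ag

open Filter Topology
open scoped ENNReal NNReal

lemma tendsto_mul_atTop {c : ℕ} (hc : 0 < c) : Tendsto (fun s : ℕ => c * s) atTop atTop :=
  tendsto_atTop_mono (fun s => Nat.le_mul_of_pos_left s hc) tendsto_id

lemma exists_gt {α : Type*} (T : Finset α) (H : ℕ → ℕ) (h : α → ℕ → ℕ) (m : α → ℕ) (a k : ℕ)
    (ha : 0 < a) (hk : 1 ≤ k) (h0 : ∀ p, h p 0 = 0)
    (hlt : ∑ p ∈ T, (m p : ℝ≥0∞) ^ k * up (h p) k < (a : ℝ≥0∞) ^ k * lo H k) :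
    ∃ s, 1 ≤ s ∧ ∑ p ∈ T, h p (m p * s) < H (a * s) := by
  classical
  set x := ∑ p ∈ T, (m p : ℝ≥0∞) ^ k * up (h p) k with hx
  have hxt : x ≠ ⊤ := (hlt.trans_le le_top).ne
  have hak : (0 : ℝ) < (a : ℝ) ^ k := by positivity
  have hak0 : (a : ℝ≥0∞) ^ k ≠ 0 := pow_ne_zero _ (by exact_mod_cast ha.ne')
  have hakt : (a : ℝ≥0∞) ^ k ≠ ⊤ := ENNReal.pow_ne_top (ENNReal.natCast_ne_top a)
  have h1 : x / (a : ℝ≥0∞) ^ k < lo H k := by
    rw [ENNReal.div_lt_iff (Or.inl hak0) (Or.inl hakt), mul_comm]; exact hlt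
  obtain ⟨z, hz1, hz2⟩ := exists_between h1
  have hzt : z ≠ ⊤ := (hz2.trans_le le_top).ne
  have hz3 : ENNReal.ofReal z.toReal < lo H k := by rwa [ENNReal.ofReal_toReal hzt]
  have hxz : x.toReal < (a : ℝ) ^ k * z.toReal := by
    rw [ENNReal.div_lt_iff (Or.inl hak0) (Or.inl hakt)] at hz1
    have := (ENNReal.toReal_lt_toReal hxt (ENNReal.mul_ne_top hzt hakt)).2 hz1
    rw [ENNReal.toReal_mul, ENNReal.toReal_pow, ENNReal.toReal_natCast, mul_comm] at this
    exact this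
  set M : ℝ := ∑ p ∈ T, (m p : ℝ) ^ k with hM
  have hM0 : 0 ≤ M := Finset.sum_nonneg fun p _ => by positivity
  set η : ℝ := ((a : ℝ) ^ k * z.toReal - x.toReal) / (M + 1) with hη
  have hη0 : 0 < η := div_pos (sub_pos.2 hxz) (by linarith)
  have hηM : x.toReal + η * M < (a : ℝ) ^ k * z.toReal := by
    have : η * (M + 1) = (a : ℝ) ^ k * z.toReal - x.toReal := by rw [hη]; field_simp
    nlinarith
  have hfin : ∀ p ∈ T, (m p : ℝ≥0∞) ^ k * up (h p) k ≠ ⊤ := fun p hp =>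
    ne_top_of_le_ne_top hxt (Finset.single_le_sum (f := fun p => (m p : ℝ≥0∞) ^ k * up (h p) k)
      (fun _ _ => by simp) hp)
  have hxr : x.toReal = ∑ p ∈ T, (m p : ℝ) ^ k * (up (h p) k).toReal := by
    rw [hx, ENNReal.toReal_sum hfin]
    simp
  have hev : ∀ p ∈ T, ∀ᶠ s : ℕ in atTop,
      (h p (m p * s) : ℝ) ≤ ((up (h p) k).toReal + η) * (m p : ℝ) ^ k * (s : ℝ) ^ k := by
    intro p hp
    by_cases hm : m p = 0
    · filter_upwards with s
      rw [hm, zero_mul, h0]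
      have : k ≠ 0 := by omega
      simp [this]
    · have hut : up (h p) k ≠ ⊤ := by
        intro ht
        apply hfin p hp
        rw [ht, ENNReal.mul_top (pow_ne_zero _ (by exact_mod_cast hm))]
      have a1 := ev_of_up_lt (h := h p) (k := k) (a := (up (h p) k).toReal + η) (by
        conv_lhs => rw [← ENNReal.ofReal_toReal hut]
        rw [ENNReal.ofReal_lt_ofReal_iff_of_nonneg ENNReal.toReal_nonneg]; linarith)
      filter_upwards [(tendsto_mul_atTop (Nat.pos_of_ne_zero hm)).eventually a1] with s hs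
      rw [mul_assoc, ← mul_pow]
      simpa using hs
  have hall := (Finset.eventually_all T).2 hev
  have hH := (tendsto_mul_atTop ha).eventually (ev_of_lt_lo hz3)
  obtain ⟨s, ⟨hs1, hs2⟩, hs3⟩ := ((hall.and hH).and (eventually_ge_atTop 1)).exists
  refine ⟨s, hs3, ?_⟩
  have hsk : (0 : ℝ) < (s : ℝ) ^ k := by positivity
  have e1 : ((∑ p ∈ T, h p (m p * s) : ℕ) : ℝ) ≤ (x.toReal + η * M) * (s : ℝ) ^ k := by
    push_cast
    refine (Finset.sum_le_sum hs1).trans (le_of_eq ?_)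
    rw [hxr, hM, Finset.mul_sum, ← Finset.sum_add_distrib, Finset.sum_mul]
    exact Finset.sum_congr rfl fun p _ => by ring
  have e2 : (a : ℝ) ^ k * z.toReal * (s : ℝ) ^ k ≤ H (a * s) := by
    refine le_trans (le_of_eq ?_) hs2
    push_cast; ring
  have : ((∑ p ∈ T, h p (m p * s) : ℕ) : ℝ) < H (a * s) :=
    e1.trans_lt ((mul_lt_mul_of_pos_right hηM hsk).trans_le e2)
  exact_mod_cast this

/-- Choice of the intermediate slope in Kleiman's argument. -/
lemma exists_slope {d x : ℝ} (hd : 0 < d) (k : ℕ) (hx : d ^ (k + 1 + 1) < x) :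
    ∃ a b : ℕ, 0 < a ∧ 0 < b ∧ x * (b : ℝ) ^ (k + 1 + 1) < (a : ℝ) ^ (k + 1 + 1) ∧
      d ^ (k + 1) * a < x * b := by
  have hx0 : 0 < x := (pow_pos hd _).trans hx
  set r : ℝ := x ^ ((k + 1 + 1 : ℕ) : ℝ)⁻¹ with hr
  have hr0 : 0 < r := Real.rpow_pos_of_pos hx0 _
  have hrk : r ^ (k + 1 + 1) = x := Real.rpow_inv_natCast_pow hx0.le (by omega)
  have hdr : d < r := by
    by_contra hcon
    have := pow_le_pow_left₀ hr0.le (not_lt.1 hcon) (k + 1 + 1)
    linarith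
  have hdk : 0 < d ^ (k + 1) := pow_pos hd _
  have h1 : r < x / d ^ (k + 1) := by
    rw [lt_div_iff₀ hdk, ← hrk, pow_succ r (k + 1), mul_comm]
    exact mul_lt_mul_of_pos_right (pow_lt_pow_left₀ hdr hd.le (by omega)) hr0
  obtain ⟨q, hq1, hq2⟩ := exists_rat_btwn h1
  have hq0 : 0 < q := by exact_mod_cast hr0.trans hq1
  have hnum : 0 < q.num := Rat.num_pos.2 hq0
  have hqe : (q : ℝ) = (q.num.toNat : ℝ) / (q.den : ℝ) := by
    rw [Rat.cast_def]
    congr 1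
    have : ((q.num.toNat : ℤ) : ℝ) = (q.num : ℝ) := by rw [Int.toNat_of_nonneg hnum.le]
    exact_mod_cast this.symm
  have hden : (0 : ℝ) < q.den := by exact_mod_cast q.den_pos
  refine ⟨q.num.toNat, q.den, by omega, q.den_pos, ?_, ?_⟩
  · have := pow_lt_pow_left₀ hq1 hr0.le (n := k + 1 + 1) (by omega)
    rw [hrk, hqe, div_pow, lt_div_iff₀ (by positivity)] at this
    exact this
  · rw [hqe, div_lt_div_iff₀ hden hdk] at hq2
    linarith

end Pool.Agent.Lib.MP_bc213e_ag
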