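import Pool.Agent.Lib.MP_bc213e_ag.Defs
import Pool.Agent.Lib.MP_bc213e_ag.Seq2

namespace Pool.Agent.Lib.MP_bc213e_ag

open MvPolynomial Filter Module
open scoped ENNReal

section LinAlg
variable {K : Type*} [Field K] {M N P : Type*} [AddCommGroup M] [Module K M]
  [AddCommGroup N] [Module K N] [AddCommGroup P] [Module K P]

lemma finrank_add_le (π : M →ₗ[K] N) (μ : P →ₗ[K] M) (hμ : Function.Injective μ)
    (W : Submodule K M) [Module.Finite K W] (U : Submodule K P) (hU : U.map μ ≤ W)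
    (hπ : ∀ u ∈ U, π (μ u) = 0) : finrank K (W.map π) + finrank K U ≤ finrank K W := by
  have h1 := LinearMap.finrank_range_add_finrank_ker (π.domRestrict W)
  rw [LinearMap.range_domRestrict] at h1
  have h2 : finrank K U = finrank K (U.map μ) :=
    (Submodule.equivMapOfInjective μ hμ U).finrank_eq
  have h3 : finrank K (LinearMap.ker (π.domRestrict W)) =
      finrank K ((LinearMap.ker (π.domRestrict W)).map W.subtype) :=
    (Submodule.equivMapOfInjective W.subtype W.injective_subtype _).finrank_eq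
  have h4 : U.map μ ≤ (LinearMap.ker (π.domRestrict W)).map W.subtype := by
    rintro _ ⟨u, hu, rfl⟩
    exact ⟨⟨μ u, hU ⟨u, hu, rfl⟩⟩, by simpa using hπ u hu, rfl⟩
  have h5 := Submodule.finrank_mono h4
  omega

lemma finrank_le_add [Module.Finite K M] [Module.Finite K N] [Module.Finite K P]
    (π : M →ₗ[K] N) (μ : P →ₗ[K] M) (h : LinearMap.ker π ≤ LinearMap.range μ) :
    finrank K M ≤ finrank K N + finrank K P := by
  have h1 := LinearMap.finrank_range_add_finrank_ker π
  have h2 := Submodule.finrank_mono h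
  have h3 := LinearMap.finrank_range_le μ
  have h4 := Submodule.finrank_le (LinearMap.range π)
  omega

end LinAlg

variable {K : Type*} [Field K] {σ : Type*}

/-- The linear map between quotients induced by multiplication with `f`. -/
noncomputable def mulQ (J I : Ideal (MvPolynomial σ K)) (f : MvPolynomial σ K)
    (h : ∀ g ∈ J, g * f ∈ I) : (MvPolynomial σ K ⧸ J) →ₗ[K] (MvPolynomial σ K ⧸ I) :=
  (Submodule.mapQ J I (LinearMap.mulRight (MvPolynomial σ K) f) h).restrictScalars K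

lemma mulQ_mk (J I : Ideal (MvPolynomial σ K)) (f : MvPolynomial σ K)
    (h : ∀ g ∈ J, g * f ∈ I) (g : MvPolynomial σ K) :
    mulQ J I f h (Ideal.Quotient.mk J g) = Ideal.Quotient.mk I (g * f) := rfl

lemma mem_pt {p : σ → K} {f : MvPolynomial σ K} : f ∈ vanishingIdeal K {p} ↔ eval p f = 0 := by
  rw [mem_vanishingIdeal_singleton_iff]; rfl

lemma pt_eq_span (p : σ → K) :
    vanishingIdeal K {p} = Ideal.span (Set.range fun i => (X i - C (p i) : MvPolynomial σ K)) := by
  apply le_antisymm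
  · intro f hf
    have key : ∀ g : MvPolynomial σ K, g - C (eval p g) ∈
        Ideal.span (Set.range fun i => (X i - C (p i) : MvPolynomial σ K)) := by
      intro g
      induction g using MvPolynomial.induction_on with
      | C a => simp
      | add g1 g2 h1 h2 =>
        have := Ideal.add_mem _ h1 h2
        rw [map_add, map_add]
        have e : g1 + g2 - (C (eval p g1) + C (eval p g2))
          = g1 - C (eval p g1) + (g2 - C (eval p g2)) := by ring
        rw [e]; exact this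
      | mul_X g i h =>
        have h2 : (X i - C (p i) : MvPolynomial σ K) ∈
          Ideal.span (Set.range fun i => (X i - C (p i) : MvPolynomial σ K)) :=
          Ideal.subset_span ⟨i, rfl⟩
        have := Ideal.add_mem _ (Ideal.mul_mem_right (X i) _ h)
          (Ideal.mul_mem_left _ (C (eval p g)) h2)
        rw [map_mul, map_mul, eval_X]
        have e : g * X i - C (eval p g) * C (p i)
          = (g - C (eval p g)) * X i + C (eval p g) * (X i - C (p i)) := by ring
        rw [e]; exact this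
    have := key f
    rwa [mem_pt.1 hf, map_zero, sub_zero] at this
  · rw [Ideal.span_le]
    rintro _ ⟨i, rfl⟩
    simp [mem_pt]

lemma totalDegree_X_sub_C_le (i : σ) (a : K) :
    (X i - C a : MvPolynomial σ K).totalDegree ≤ 1 := by
  refine (totalDegree_sub _ _).trans ?_
  simp [totalDegree_X]

/-- Taylor truncation. -/
lemma exists_trunc [Finite σ] (p : σ → K) (s : ℕ) (f : MvPolynomial σ K) :
    ∃ g ∈ restrictTotalDegree σ K s, f - g ∈ vanishingIdeal K {p} ^ s := by
  classical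
  haveI := Fintype.ofFinite σ
  induction s generalizing f with
  | zero => exact ⟨0, Submodule.zero_mem _, by simp⟩
  | succ s ih =>
    have h1 : f - C (eval p f) ∈ vanishingIdeal K {p} := by simp [mem_pt]
    rw [pt_eq_span, Ideal.mem_span_range_iff_exists_fun] at h1
    obtain ⟨c, hc⟩ := h1
    choose g hg1 hg2 using fun i => ih (c i)
    refine ⟨C (eval p f) + ∑ i, g i * (X i - C (p i)), ?_, ?_⟩
    · refine Submodule.add_mem _ (by simp [mem_restrictTotalDegree]) (Submodule.sum_mem _ ?_)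
      intro i _
      rw [mem_restrictTotalDegree]
      refine (totalDegree_mul _ _).trans (add_le_add ?_ (totalDegree_X_sub_C_le _ _))
      exact (mem_restrictTotalDegree _ _ _).1 (hg1 i)
    · have e : f - (C (eval p f) + ∑ i, g i * (X i - C (p i)))
          = ∑ i, (c i - g i) * (X i - C (p i)) := by
        rw [← sub_sub, ← hc, ← Finset.sum_sub_distrib]
        exact Finset.sum_congr rfl fun i _ => by ring
      rw [e, pow_succ]
      refine Ideal.sum_mem _ fun i _ => Ideal.mul_mem_mul (hg2 i) ?_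
      simp [mem_pt]

lemma map_restrict_eq_top [Finite σ] (I : Ideal (MvPolynomial σ K)) (p : σ → K) (s : ℕ) :
    (restrictTotalDegree σ K s).map
      (Ideal.Quotient.mkₐ K (I ⊔ vanishingIdeal K {p} ^ s)).toLinearMap = ⊤ := by
  rw [eq_top_iff]
  rintro x -
  obtain ⟨f, rfl⟩ := Ideal.Quotient.mk_surjective x
  obtain ⟨g, hg1, hg2⟩ := exists_trunc p s f
  refine ⟨g, hg1, ?_⟩
  simp only [AlgHom.toLinearMap_apply, Ideal.Quotient.mkₐ_eq_mk]
  exact (Ideal.Quotient.eq.2 (Ideal.mem_sup_right hg2)).symm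

instance finite_sam [Finite σ] (I : Ideal (MvPolynomial σ K)) (p : σ → K) (s : ℕ) :
    Module.Finite K (MvPolynomial σ K ⧸ (I ⊔ vanishingIdeal K {p} ^ s)) := by
  rw [Module.finite_def, ← map_restrict_eq_top I p s]
  exact Submodule.FG.map _ (Module.Finite.iff_fg.1 inferInstance)

lemma map_factor {I I' : Ideal (MvPolynomial σ K)} (h : I ≤ I') (W : Submodule K (MvPolynomial σ K)) :
    (W.map (Ideal.Quotient.mkₐ K I).toLinearMap).map (Ideal.Quotient.factorₐ K h).toLinearMap
      = W.map (Ideal.Quotient.mkₐ K I').toLinearMap := by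
  rw [← Submodule.map_comp]; rfl

lemma hilb_anti [Finite σ] {I I' : Ideal (MvPolynomial σ K)} (h : I ≤ I') (s : ℕ) :
    hilb I' s ≤ hilb I s := by
  unfold hilb
  rw [← map_factor h]
  exact Submodule.finrank_map_le _ _

lemma hilb_mono [Finite σ] (I : Ideal (MvPolynomial σ K)) : Monotone (hilb I) := by
  intro s t hst
  apply Submodule.finrank_mono
  apply Submodule.map_mono
  intro f hf
  rw [mem_restrictTotalDegree] at *
  exact hf.trans hst

lemma sam_le_hilb [Finite σ] (I : Ideal (MvPolynomial σ K)) (p : σ → K) (s : ℕ) :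
    sam I p s ≤ hilb I s := by
  refine le_trans (le_of_eq ?_) (hilb_anti (le_sup_left : I ≤ I ⊔ vanishingIdeal K {p} ^ s) s)
  unfold hilb sam
  rw [map_restrict_eq_top, finrank_top]

lemma sam_eq_zero {I : Ideal (MvPolynomial σ K)} {p : σ → K} {s : ℕ}
    (h : I ⊔ vanishingIdeal K {p} ^ s = ⊤) : sam I p s = 0 := by
  unfold sam
  haveI := Ideal.Quotient.subsingleton_iff.2 h
  exact finrank_zero_of_subsingleton

lemma sam_zero (I : Ideal (MvPolynomial σ K)) (p : σ → K) : sam I p 0 = 0 :=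
  sam_eq_zero (by simp)

lemma sam_eq_zero_of_not_le {I : Ideal (MvPolynomial σ K)} {p : σ → K}
    (h : ¬ I ≤ vanishingIdeal K {p}) (s : ℕ) : sam I p s = 0 := by
  apply sam_eq_zero
  apply Ideal.sup_pow_eq_top
  by_contra hne
  have hmax : (vanishingIdeal K {p}).IsMaximal := inferInstance
  have := hmax.eq_of_le hne le_sup_right
  exact h (this ▸ le_sup_left)

lemma hilb_split [Finite σ] {I I' J : Ideal (MvPolynomial σ K)} {f : MvPolynomial σ K} {c s : ℕ}
    (hI : I ≤ I') (hf : f ∈ I') (hJ : ∀ g, g ∈ J ↔ g * f ∈ I) (hc : f.totalDegree ≤ c)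
    (hs : c ≤ s) : hilb I' s + hilb J (s - c) ≤ hilb I s := by
  unfold hilb
  rw [← map_factor hI]
  refine finrank_add_le _ (mulQ J I f fun g hg => (hJ g).1 hg) ?_ _ _ ?_ ?_
  · rw [injective_iff_map_eq_zero]
    intro x hx
    obtain ⟨g, rfl⟩ := Ideal.Quotient.mk_surjective x
    rw [mulQ_mk, Ideal.Quotient.eq_zero_iff_mem] at hx
    exact Ideal.Quotient.eq_zero_iff_mem.2 ((hJ g).2 hx)
  · rintro _ ⟨_, ⟨g, hg, rfl⟩, rfl⟩
    refine ⟨g * f, ?_, rfl⟩
    simp only [SetLike.mem_coe, mem_restrictTotalDegree] at hg ⊢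
    refine (totalDegree_mul _ _).trans ?_
    omega
  · rintro _ ⟨g, hg, rfl⟩
    change Ideal.Quotient.mk I' (g * f) = 0
    exact Ideal.Quotient.eq_zero_iff_mem.2 (Ideal.mul_mem_left _ _ hf)

lemma sam_split [Finite σ] {I J : Ideal (MvPolynomial σ K)} {f : MvPolynomial σ K} {p : σ → K}
    {c s : ℕ} (hJ : ∀ g ∈ J, g * f ∈ I) (hc : f ∈ I ⊔ vanishingIdeal K {p} ^ c) (hs : c ≤ s) :
    sam I p s ≤ sam (I ⊔ Ideal.span {f}) p s + sam J p (s - c) := by
  unfold sam
  have h1 : I ⊔ vanishingIdeal K {p} ^ s ≤ (I ⊔ Ideal.span {f}) ⊔ vanishingIdeal K {p} ^ s :=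
    sup_le_sup_right le_sup_left _
  have h2 : ∀ g ∈ J ⊔ vanishingIdeal K {p} ^ (s - c), g * f ∈ I ⊔ vanishingIdeal K {p} ^ s := by
    intro g hg
    obtain ⟨a, ha, b, hb, rfl⟩ := Submodule.mem_sup.1 hg
    obtain ⟨u, hu, v, hv, rfl⟩ := Submodule.mem_sup.1 hc
    rw [add_mul]
    refine Ideal.add_mem _ (Ideal.mem_sup_left (hJ a ha)) ?_
    rw [mul_add]
    refine Ideal.add_mem _ (Ideal.mem_sup_left (Ideal.mul_mem_left _ _ hu)) ?_
    apply Ideal.mem_sup_right
    have := Ideal.mul_mem_mul hb hv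
    rwa [← pow_add, Nat.sub_add_cancel hs] at this
  refine finrank_le_add (Ideal.Quotient.factorₐ K h1).toLinearMap (mulQ _ _ f h2) ?_
  intro x hx
  obtain ⟨g, rfl⟩ := Ideal.Quotient.mk_surjective x
  have hg : g ∈ (I ⊔ Ideal.span {f}) ⊔ vanishingIdeal K {p} ^ s :=
    Ideal.Quotient.eq_zero_iff_mem.1 hx
  obtain ⟨a, ha, b, hb, rfl⟩ := Submodule.mem_sup.1 hg
  obtain ⟨u, hu, v, hv, rfl⟩ := Submodule.mem_sup.1 ha
  obtain ⟨w, rfl⟩ := Ideal.mem_span_singleton'.1 hv
  refine ⟨Ideal.Quotient.mk _ w, ?_⟩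
  rw [mulQ_mk, Ideal.Quotient.eq]
  have e : w * f - (u + w * f + b) = -(u + b) := by ring
  rw [e]
  exact neg_mem (Ideal.add_mem _ (Ideal.mem_sup_left hu) (Ideal.mem_sup_right hb))

lemma exists_section [Finite σ] {α : Type*} (I : Ideal (MvPolynomial σ K)) (T : Finset α)
    (pt : α → σ → K) (μ : α → ℕ) (D : ℕ) (h : ∑ p ∈ T, sam I (pt p) (μ p) < hilb I D) :
    ∃ G : MvPolynomial σ K, G.totalDegree ≤ D ∧ G ∉ I ∧
      ∀ p ∈ T, G ∈ I ⊔ vanishingIdeal K {pt p} ^ μ p := by
  classical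
  set W := (restrictTotalDegree σ K D).map (Ideal.Quotient.mkₐ K I).toLinearMap with hW
  let φ : W →ₗ[K] (∀ p : T, MvPolynomial σ K ⧸ (I ⊔ vanishingIdeal K {pt p.1} ^ μ p.1)) :=
    LinearMap.pi fun p => (Ideal.Quotient.factorₐ K
      (le_sup_left : I ≤ I ⊔ vanishingIdeal K {pt p.1} ^ μ p.1)).toLinearMap ∘ₗ W.subtype
  have hlt : finrank K (∀ p : T, MvPolynomial σ K ⧸ (I ⊔ vanishingIdeal K {pt p.1} ^ μ p.1))
      < finrank K W := by
    rw [Module.finrank_pi_fintype]
    refine lt_of_eq_of_lt ?_ h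
    exact Finset.sum_coe_sort T (fun p => sam I (pt p) (μ p))
  obtain ⟨x, hx0, hx⟩ := (Submodule.ne_bot_iff _).1 (LinearMap.ker_ne_bot_of_finrank_lt (f := φ) hlt)
  obtain ⟨_, G, hG, rfl⟩ := x
  refine ⟨G, (mem_restrictTotalDegree _ _ _).1 hG, fun hI => hx ?_, fun p hp => ?_⟩
  · apply Subtype.ext
    exact Ideal.Quotient.eq_zero_iff_mem.2 hI
  · have := congrFun (LinearMap.mem_ker.1 hx0) ⟨p, hp⟩
    exact Ideal.Quotient.eq_zero_iff_mem.1 this

end Pool.Agent.Lib.MP_bc213e_ag
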