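import Mathlib

/-!
Definitions: Hilbert and Hilbert-Samuel functions, degree and multiplicity of a curve,
order of vanishing along a subvariety, effective and curve-nonnegative classes
on the blow-up of projective space, all written in the affine chart.
-/

namespace Pool.Agent.Lib.MP_bc213e_ag

open MvPolynomial Filter
open scoped ENNReal

variable {K : Type*} [Field K] {σ : Type*}

/-- Hilbert function of the projective closure: the dimension of the space of classes modulo `I`
of polynomials of total degree at most `s`. -/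
noncomputable def hilb (I : Ideal (MvPolynomial σ K)) (s : ℕ) : ℕ :=
  Module.finrank K ((restrictTotalDegree σ K s).map (Ideal.Quotient.mkₐ K I).toLinearMap)

/-- Hilbert-Samuel function at the point `p`: the dimension of `K[x] / (I + m_p ^ s)`. -/
noncomputable def sam (I : Ideal (MvPolynomial σ K)) (p : σ → K) (s : ℕ) : ℕ :=
  Module.finrank K (MvPolynomial σ K ⧸ (I ⊔ vanishingIdeal K {p} ^ s))

/-- Degree of the curve with prime ideal `Q`: the limit of `hilb Q s / s`. -/
noncomputable def curveDeg (Q : Ideal (MvPolynomial σ K)) : ℝ :=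
  (liminf (fun s : ℕ => (hilb Q s : ℝ≥0∞) / (s : ℝ≥0∞)) atTop).toReal

/-- Multiplicity at `p` of the curve with prime ideal `Q`: the limit of `sam Q p s / s`. -/
noncomputable def curveMult (Q : Ideal (MvPolynomial σ K)) (p : σ → K) : ℝ :=
  (limsup (fun s : ℕ => (sam Q p s : ℝ≥0∞) / (s : ℝ≥0∞)) atTop).toReal

/-- On the variety with prime ideal `P0`, the function `F` vanishes to order at least `μ` along
the subvariety with prime ideal `P` (symbolic power). -/
def OrdGe (P0 P : Ideal (MvPolynomial σ K)) (F : MvPolynomial σ K) (μ : ℕ) : Prop :=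
  ∃ g, g ∉ P ∧ g * F ∈ P0 ⊔ P ^ μ

/-- On the blow-up of the variety `P0` along the centres `P i`, the class `d H - ∑ m i E i` is
`ℚ`-effective. -/
def QEff {ι : Type*} (P0 : Ideal (MvPolynomial σ K)) (P : ι → Ideal (MvPolynomial σ K))
    (d : ℚ) (m : ι → ℚ) : Prop :=
  ∃ t : ℕ, 0 < t ∧ ∃ F : MvPolynomial σ K, F ∉ P0 ∧ (F.totalDegree : ℚ) ≤ t * d ∧
    ∀ i, ∃ μ : ℕ, t * m i ≤ μ ∧ OrdGe P0 (P i) F μ

/-- Numerical consequences of nefness of `d H - ∑ m i E i`: it is nonnegative on lines in the
fibres of the `E i`, and on every curve of the variety `P0` not contained in a centre the degree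
bounds the weighted multiplicities at points of the centres. -/
def CurveNef {ι : Type*} (P0 : Ideal (MvPolynomial σ K)) (P : ι → Ideal (MvPolynomial σ K))
    (d : ℚ) (m : ι → ℚ) : Prop :=
  (∀ i, 0 ≤ m i) ∧
  ∀ Q : Ideal (MvPolynomial σ K), Q.IsPrime → P0 ≤ Q → ringKrullDim (MvPolynomial σ K ⧸ Q) = 1 →
    (∀ i, ¬ P i ≤ Q) → ∀ T : Finset (ι × (σ → K)), (∀ x ∈ T, x.2 ∈ zeroLocus K (P x.1)) →
      ∑ x ∈ T, (m x.1 : ℝ) * curveMult Q x.2 ≤ (d : ℝ) * curveDeg Q

end Pool.Agent.Lib.MP_bc213e_ag
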