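import Pool.Agent.Lib.MP_bc213e_ag.Plane

/-! The cone of effective classes on a blow-up of a subvariety `Y` with prime ideal `P0`. -/

namespace Pool.Agent.Lib.MP_bc213e_ag

open MvPolynomial Filter Module
open scoped ENNReal

variable {K : Type*} [Field K] {σ : Type*} {ι : Type*}

/-- Effective classes on the blow-up of `Y = V(P0)`, rational scaling. -/
def REff (P0 : Ideal (MvPolynomial σ K)) (P : ι → Ideal (MvPolynomial σ K)) (d : ℚ) (m : ι → ℚ) :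
    Prop :=
  ∃ t : ℚ, 0 < t ∧ ∃ F : MvPolynomial σ K, F ∉ P0 ∧ (F.totalDegree : ℚ) ≤ t * d ∧
    ∀ i, ∃ μ : ℕ, t * m i ≤ μ ∧ ∃ g, g ∉ P i ∧ g * F ∈ P0 ⊔ P i ^ μ

lemma mul_mem_sup_pow {R : Type*} [CommRing R] {P0 P : Ideal R} {x y : R} {a b : ℕ}
    (hx : x ∈ P0 ⊔ P ^ a) (hy : y ∈ P0 ⊔ P ^ b) : x * y ∈ P0 ⊔ P ^ (a + b) := by
  obtain ⟨x1, hx1, x2, hx2, rfl⟩ := Submodule.mem_sup.1 hx
  obtain ⟨y1, hy1, y2, hy2, rfl⟩ := Submodule.mem_sup.1 hy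
  have e : (x1 + x2) * (y1 + y2) = (x1 * (y1 + y2) + x2 * y1) + x2 * y2 := by ring
  rw [e, pow_add]
  exact Ideal.add_mem _ (Ideal.mem_sup_left (Ideal.add_mem _ (Ideal.mul_mem_right _ _ hx1)
    (Ideal.mul_mem_left _ _ hy1))) (Ideal.mem_sup_right (Ideal.mul_mem_mul hx2 hy2))

lemma pow_mem_sup_pow {R : Type*} [CommRing R] {P0 P : Ideal R} {x : R} {a : ℕ}
    (hx : x ∈ P0 ⊔ P ^ a) (k : ℕ) : x ^ k ∈ P0 ⊔ P ^ (k * a) := by
  induction k with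
  | zero => simp
  | succ k ih => rw [pow_succ, Nat.succ_mul]; exact mul_mem_sup_pow ih hx

variable {P0 : Ideal (MvPolynomial σ K)} {P : ι → Ideal (MvPolynomial σ K)}

lemma REff.mono {d d' : ℚ} {m m' : ι → ℚ} (h : REff P0 P d m) (hd : d ≤ d')
    (hm : ∀ i, m' i ≤ m i) : REff P0 P d' m' := by
  obtain ⟨t, ht, F, hF, h1, h2⟩ := h
  refine ⟨t, ht, F, hF, h1.trans (mul_le_mul_of_nonneg_left hd ht.le), fun i => ?_⟩
  obtain ⟨μ, h3, h4⟩ := h2 i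
  exact ⟨μ, (mul_le_mul_of_nonneg_left (hm i) ht.le).trans h3, h4⟩

lemma REff.zero (h0 : P0.IsPrime) (hP : ∀ i, (P i).IsPrime) : REff P0 P 0 0 :=
  ⟨1, one_pos, 1, fun h => h0.ne_top ((Ideal.eq_top_iff_one _).2 h), by simp, fun i =>
    ⟨0, by simp, 1, fun h => (hP i).ne_top ((Ideal.eq_top_iff_one _).2 h), by simp⟩⟩

lemma REff.smul (h0 : P0.IsPrime) (hP : ∀ i, (P i).IsPrime) {d : ℚ} {m : ι → ℚ}
    (h : REff P0 P d m) {c : ℚ} (hc : 0 ≤ c) : REff P0 P (c * d) (fun i => c * m i) := by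
  rcases hc.eq_or_lt with rfl | hc
  · simp only [zero_mul]; exact REff.zero h0 hP
  obtain ⟨t, ht, F, hF, h1, h2⟩ := h
  refine ⟨t / c, div_pos ht hc, F, hF, ?_, fun i => ?_⟩
  · rwa [← mul_assoc, div_mul_cancel₀ _ hc.ne']
  · obtain ⟨μ, h3, h4⟩ := h2 i
    exact ⟨μ, by rwa [← mul_assoc, div_mul_cancel₀ _ hc.ne'], h4⟩

lemma data_pow (h0 : P0.IsPrime) (hP : ∀ i, (P i).IsPrime) {d : ℚ} {m : ι → ℚ} {t : ℚ}
    {F : MvPolynomial σ K} (hF : F ∉ P0) (h1 : (F.totalDegree : ℚ) ≤ t * d)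
    (h2 : ∀ i, ∃ μ : ℕ, t * m i ≤ μ ∧ ∃ g, g ∉ P i ∧ g * F ∈ P0 ⊔ P i ^ μ) (k : ℕ) :
    F ^ k ∉ P0 ∧ ((F ^ k).totalDegree : ℚ) ≤ (k * t) * d ∧
      ∀ i, ∃ μ : ℕ, (k * t) * m i ≤ μ ∧ ∃ g, g ∉ P i ∧ g * F ^ k ∈ P0 ⊔ P i ^ μ := by
  have hk : (0 : ℚ) ≤ k := Nat.cast_nonneg k
  refine ⟨fun h => hF (h0.mem_of_pow_mem _ h), ?_, fun i => ?_⟩
  · have : ((F ^ k).totalDegree : ℚ) ≤ k * F.totalDegree := by
      exact_mod_cast totalDegree_pow F k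
    rw [mul_assoc]
    exact this.trans (mul_le_mul_of_nonneg_left h1 hk)
  · obtain ⟨μ, h3, g, h4, h5⟩ := h2 i
    refine ⟨k * μ, ?_, g ^ k, fun h => h4 ((hP i).mem_of_pow_mem _ h), ?_⟩
    · push_cast; rw [mul_assoc]; exact mul_le_mul_of_nonneg_left h3 hk
    · rw [← mul_pow]; exact pow_mem_sup_pow h5 k

lemma REff.nat (h0 : P0.IsPrime) (hP : ∀ i, (P i).IsPrime) {d : ℚ} {m : ι → ℚ}
    (h : REff P0 P d m) : ∃ t : ℕ, 0 < t ∧ ∃ F : MvPolynomial σ K, F ∉ P0 ∧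
      (F.totalDegree : ℚ) ≤ t * d ∧
      ∀ i, ∃ μ : ℕ, t * m i ≤ μ ∧ ∃ g, g ∉ P i ∧ g * F ∈ P0 ⊔ P i ^ μ := by
  obtain ⟨t, ht, F, hF, h1, h2⟩ := h
  have hnum : 0 < t.num := Rat.num_pos.2 ht
  have e : ((t.num.toNat : ℕ) : ℚ) = t.den * t := by
    rw [mul_comm, Rat.mul_den_eq_num]
    exact_mod_cast congrArg (Int.cast : ℤ → ℚ) (Int.toNat_of_nonneg hnum.le)
  refine ⟨t.num.toNat, by omega, F ^ t.den, ?_⟩
  rw [e]
  exact data_pow h0 hP hF h1 h2 t.den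

lemma REff.add (h0 : P0.IsPrime) (hP : ∀ i, (P i).IsPrime) {d d' : ℚ} {m m' : ι → ℚ}
    (h : REff P0 P d m) (h' : REff P0 P d' m') : REff P0 P (d + d') (fun i => m i + m' i) := by
  obtain ⟨t, ht, F, hF, h1, h2⟩ := h.nat h0 hP
  obtain ⟨t', ht', F', hF', h1', h2'⟩ := h'.nat h0 hP
  obtain ⟨a1, a2, a3⟩ := data_pow h0 hP hF h1 h2 t'
  obtain ⟨b1, b2, b3⟩ := data_pow h0 hP hF' h1' h2' t
  refine ⟨t' * t, by positivity, F ^ t' * F' ^ t, fun h => (h0.mem_or_mem h).elim a1 b1, ?_,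
    fun i => ?_⟩
  · have : ((F ^ t' * F' ^ t).totalDegree : ℚ) ≤ (F ^ t').totalDegree + (F' ^ t).totalDegree := by
      exact_mod_cast totalDegree_mul _ _
    linarith
  · obtain ⟨μ, c1, g, c2, c3⟩ := a3 i
    obtain ⟨μ', c1', g', c2', c3'⟩ := b3 i
    refine ⟨μ + μ', by push_cast; linarith, g * g', fun h => ((hP i).mem_or_mem h).elim c2 c2', ?_⟩
    have := mul_mem_sup_pow c3 c3'
    rwa [mul_mul_mul_comm] at this

/-- A polynomial with prescribed memberships gives an effective class. -/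
lemma REff.of_poly (hP : ∀ i, (P i).IsPrime) {F : MvPolynomial σ K} (hF : F ∉ P0) {e : ℕ}
    (he : F.totalDegree ≤ e) (μ : ι → ℕ) (hμ : ∀ i, F ∈ P0 ⊔ P i ^ μ i) :
    REff P0 P e (fun i => μ i) :=
  ⟨1, one_pos, F, hF, by simpa using he, fun i => ⟨μ i, by simp, 1,
    fun h => (hP i).ne_top ((Ideal.eq_top_iff_one _).2 h), by simpa using hμ i⟩⟩

/-- The basic step: if `K + λ L` and `L - K` are effective then `L` is effective. -/
lemma REff.of_adjoint (h0 : P0.IsPrime) (hP : ∀ i, (P i).IsPrime) {d j : ℚ} {m a : ι → ℚ}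
    (hΔ : REff P0 P (d + j) (fun i => m i + a i)) {l : ℚ} (hl : 0 ≤ l)
    (hK : REff P0 P (l * d - j) (fun i => l * m i - a i)) : REff P0 P d m := by
  have h1 := (hΔ.add h0 hP hK).smul h0 hP (c := (l + 1)⁻¹) (by positivity)
  have hl' : l + 1 ≠ 0 := by positivity
  refine h1.mono (le_of_eq ?_) fun i => le_of_eq ?_
  · field_simp; ring
  · field_simp; ring

/-- The trivial case. -/
lemma REff.of_small (h0 : P0.IsPrime) (hP : ∀ i, (P i).IsPrime) {d j : ℚ} {m a : ι → ℚ}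
    (hΔ : REff P0 P (d + j) (fun i => m i + a i)) (hd : 0 < d) (hj : 0 ≤ j)
    (hm : ∀ i, j * m i ≤ a i * d) : REff P0 P d m := by
  refine REff.of_adjoint h0 hP hΔ (l := j / d) (by positivity) ?_
  refine (REff.zero h0 hP).mono (le_of_eq ?_) fun i => ?_
  · field_simp; ring
  · have := hm i
    simp only [Pi.zero_apply, sub_nonpos]
    rw [div_mul_eq_mul_div, div_le_iff₀ hd]
    exact this

end Pool.Agent.Lib.MP_bc213e_ag
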