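import Pool.Agent.Lib.MP_bc213e_ag.Alg

namespace Pool.Agent.Lib.MP_bc213e_ag

open MvPolynomial Filter Module
open scoped ENNReal

variable {K : Type*} [Field K] {σ : Type*} [Finite σ]

/-- Splitting a non-prime proper ideal. -/
lemma split_of_not_prime {I : Ideal (MvPolynomial σ K)} (hI : ¬ I.IsPrime) (hI' : I ≠ ⊤) :
    ∃ I' J : Ideal (MvPolynomial σ K), I < I' ∧ I < J ∧ (∀ k, lo (hilb I') k + lo (hilb J) k ≤
      lo (hilb I) k) ∧ ∀ p k, up (sam I p) k ≤ up (sam I' p) k + up (sam J p) k := by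
  obtain ⟨f, hf, g, hg, hfg⟩ := (Ideal.not_isPrime_iff.1 hI).resolve_left hI'
  let J : Ideal (MvPolynomial σ K) := Submodule.comap (LinearMap.mulRight (MvPolynomial σ K) f) I
  have hJ : ∀ x, x ∈ J ↔ x * f ∈ I := fun x => Iff.rfl
  refine ⟨I ⊔ Ideal.span {f}, J, ?_, ?_, fun k => ?_, fun p k => ?_⟩
  · refine lt_of_le_of_ne le_sup_left fun h => hf ?_
    rw [h]; exact Ideal.mem_sup_right (Ideal.mem_span_singleton_self f)
  · refine lt_of_le_of_ne (fun x hx => (hJ x).2 (Ideal.mul_mem_right _ _ hx)) fun h => hg ?_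
    rw [h, hJ, mul_comm]; exact hfg
  · exact lo_add k f.totalDegree fun s hs => hilb_split le_sup_left
      (Ideal.mem_sup_right (Ideal.mem_span_singleton_self f)) hJ le_rfl hs
  · refine up_add k fun s => ?_
    simpa using sam_split (I := I) (J := J) (f := f) (p := p) (c := 0) (s := s)
      (fun x hx => (hJ x).1 hx) (by simp) (Nat.zero_le _)

lemma lo_step_prime {I I' : Ideal (MvPolynomial σ K)} (hI : I.IsPrime) {G : MvPolynomial σ K}
    (hG : G ∉ I) (hII : I ≤ I') (hG' : G ∈ I') {c : ℕ} (hc : 1 ≤ c) (hd : G.totalDegree ≤ c)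
    (k : ℕ) : lo (hilb I') k ≤ ((k + 1) * c : ℕ) * lo (hilb I) (k + 1) :=
  lo_step k c hc fun _ hs => hilb_split hII hG'
    (fun g => ⟨fun hg => Ideal.mul_mem_right _ _ hg,
      fun hg => (hI.mem_or_mem hg).resolve_right hG⟩) hd hs

lemma up_step_any {I : Ideal (MvPolynomial σ K)} {G : MvPolynomial σ K} {p : σ → K} {c : ℕ}
    (hc : 1 ≤ c) (hG : G ∈ I ⊔ vanishingIdeal K {p} ^ c) (k : ℕ) :
    ((k + 1) * c : ℕ) * up (sam I p) (k + 1) ≤ up (sam (I ⊔ Ideal.span {G}) p) k :=
  up_step k c hc fun _ hs => sam_split (fun _ hg => Ideal.mul_mem_right _ _ hg) hG hs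

lemma sam_le_one_of_pt_le {I : Ideal (MvPolynomial σ K)} {p : σ → K}
    (h : vanishingIdeal K {p} ≤ I) (s : ℕ) : sam I p s ≤ hilb I 1 := by
  have e : I ⊔ vanishingIdeal K {p} ^ s ≥ I ⊔ vanishingIdeal K {p} ^ 1 := by
    rw [pow_one, sup_eq_left.2 h]; exact le_sup_left
  refine le_trans ?_ (sam_le_hilb I p 1)
  unfold sam
  exact LinearMap.finrank_le_finrank_of_surjective
    (f := (Ideal.Quotient.factorₐ K e).toLinearMap) (Ideal.Quotient.factor_surjective e)

lemma up_eq_zero_of_isMaximal {I : Ideal (MvPolynomial σ K)} (hI : I.IsMaximal) (p : σ → K)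
    (k : ℕ) : up (sam I p) (k + 1) = 0 := by
  by_cases h : I ≤ vanishingIdeal K {p}
  · have hmax : (vanishingIdeal K {p}).IsMaximal := inferInstance
    exact up_eq_zero_of_bdd _ k (sam_le_one_of_pt_le (hI.eq_of_le hmax.ne_top h).ge)
  · exact up_eq_zero_of_bdd 0 k fun s => (sam_eq_zero_of_not_le h s).le

lemma up_top (p : σ → K) (k : ℕ) : up (sam (⊤ : Ideal (MvPolynomial σ K)) p) (k + 1) = 0 :=
  up_eq_zero_of_bdd 0 k fun s => (sam_eq_zero (by simp)).le

/-- The multiplicity at a point is at most the degree. -/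
lemma up_le_lo (p : σ → K) (k : ℕ) (I : Ideal (MvPolynomial σ K)) :
    up (sam I p) k ≤ lo (hilb I) k := by
  induction k generalizing I with
  | zero => exact up_zero_le_lo_zero (hilb_mono I) (sam_le_hilb I p)
  | succ k ih =>
    induction I using IsNoetherian.induction with
    | hgt I ihI =>
      by_cases hT : I = ⊤
      · rw [hT, up_top]; simp
      by_cases hI : Ideal.IsPrime I
      · by_cases h : vanishingIdeal K {p} ≤ I
        · rw [up_eq_zero_of_bdd _ k (sam_le_one_of_pt_le h)]; simp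
        · rw [pt_eq_span, Ideal.span_le] at h
          obtain ⟨_, ⟨i, rfl⟩, hi⟩ := Set.not_subset.1 h
          have h1 := lo_step_prime hI hi (I' := I ⊔ Ideal.span {X i - C (p i)}) le_sup_left
            (Ideal.mem_sup_right (Ideal.mem_span_singleton_self _)) le_rfl
            (totalDegree_X_sub_C_le _ _) k
          have h2 := up_step_any (I := I) (G := X i - C (p i)) (p := p) (c := 1) le_rfl
            (Ideal.mem_sup_right (by simp)) k
          have h3 := h2.trans ((ih _).trans h1)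
          exact (ENNReal.mul_le_mul_iff_right (by simp) (by simp)).1 h3
      · obtain ⟨I', J, h1, h2, h3, h4⟩ := split_of_not_prime hI hT
        exact (h4 p _).trans ((add_le_add (ihI I' h1) (ihI J h2)).trans (h3 _))

lemma one_le_hilb {I : Ideal (MvPolynomial σ K)} (hI : I ≠ ⊤) (s : ℕ) : 1 ≤ hilb I s := by
  unfold hilb
  rw [Nat.one_le_iff_ne_zero, Ne, Submodule.finrank_eq_zero, ← Ne, Submodule.ne_bot_iff]
  refine ⟨1, ⟨1, by simp [mem_restrictTotalDegree], by simp⟩, ?_⟩
  have := Ideal.Quotient.nontrivial_iff.2 hI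
  exact one_ne_zero

lemma lo_pos_of_lt {I I' : Ideal (MvPolynomial σ K)} (hI : I.IsPrime) (h : I < I') (k : ℕ)
    (h0 : 0 < lo (hilb I') k) : 0 < lo (hilb I) (k + 1) := by
  obtain ⟨G, hG', hG⟩ := SetLike.exists_of_lt h
  have := lo_step_prime hI hG h.le hG' (c := G.totalDegree + 1) (by omega) (by omega) k
  by_contra hcon
  rw [not_lt, nonpos_iff_eq_zero] at hcon
  rw [hcon, mul_zero] at this
  exact absurd (h0.trans_le this) (lt_irrefl _)

lemma lo_top_of_lt {I I' : Ideal (MvPolynomial σ K)} (hI : I.IsPrime) (h : I < I') (k : ℕ)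
    (h0 : lo (hilb I') k = ⊤) : lo (hilb I) (k + 1) = ⊤ := by
  obtain ⟨G, hG', hG⟩ := SetLike.exists_of_lt h
  have := lo_step_prime hI hG h.le hG' (c := G.totalDegree + 1) (by omega) (by omega) k
  rw [h0, top_le_iff, ENNReal.mul_eq_top] at this
  rcases this with h1 | h1
  · exact h1.2
  · exact absurd h1.1 (ENNReal.natCast_ne_top _)

lemma lo_zero_pos {I : Ideal (MvPolynomial σ K)} (hI : I ≠ ⊤) : 0 < lo (hilb I) 0 := by
  have : ENNReal.ofReal 1 ≤ lo (hilb I) 0 := by
    apply le_lo_of_ev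
    filter_upwards with s
    simpa using one_le_hilb hI s
  exact lt_of_lt_of_le (by simp) this

/-- A non-maximal prime with linear Hilbert growth is a curve. -/
lemma dim_eq_one {Q : Ideal (MvPolynomial σ K)} (hQ : Q.IsPrime) (hm : ¬ Q.IsMaximal)
    (hlo : lo (hilb Q) 1 ≠ ⊤) : ringKrullDim (MvPolynomial σ K ⧸ Q) = 1 := by
  have h1 : Ring.KrullDimLE 1 (MvPolynomial σ K ⧸ Q) := by
    rw [Ring.krullDimLE_one_iff_of_noZeroDivisors]
    intro q hq0 hq
    by_contra hqm
    obtain ⟨M, hM, hqM⟩ := Ideal.exists_le_maximal q hq.ne_top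
    have hlt : q < M := lt_of_le_of_ne hqM fun h => hqm (h ▸ hM)
    have hs := Ideal.Quotient.mk_surjective (I := Q)
    have hlt' : ∀ {a b : Ideal (MvPolynomial σ K ⧸ Q)}, a < b →
        a.comap (Ideal.Quotient.mk Q) < b.comap (Ideal.Quotient.mk Q) := fun h =>
      lt_of_le_of_ne (Ideal.comap_mono h.le) fun e =>
        h.ne (Ideal.comap_injective_of_surjective _ hs e)
    have a1 : Q < q.comap (Ideal.Quotient.mk Q) := by
      have := hlt' (bot_lt_iff_ne_bot.2 hq0)
      rwa [← RingHom.ker_eq_comap_bot, Ideal.mk_ker] at this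
    have a2 : q.comap (Ideal.Quotient.mk Q) < M.comap (Ideal.Quotient.mk Q) :=
      hlt' hlt
    have a3 := lo_pos_of_lt (Ideal.comap_isPrime _ q) a2 0
      (lo_zero_pos (Ideal.comap_ne_top _ hM.ne_top))
    exact hlo (lo_top_of_lt hQ a1 0 (lo_zero_eq_top a3))
  have h2 : ¬ Ring.KrullDimLE 0 (MvPolynomial σ K ⧸ Q) := fun h =>
    hm (Ideal.Quotient.maximal_of_isField _ Ring.KrullDimLE.isField_of_isDomain)
  rw [Ring.krullDimLE_iff] at h1 h2
  refine le_antisymm (by simpa using h1) ?_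
  have h3 : (0 : WithBot ℕ∞) < ringKrullDim (MvPolynomial σ K ⧸ Q) := by simpa using h2
  exact Order.succ_le_of_lt h3

/-- Kleiman's inequality for point blow-ups. -/
theorem kleiman {α : Type*} (P0 : Ideal (MvPolynomial σ K)) (T : Finset α) (pt : α → σ → K)
    (m : α → ℕ) (d : ℕ)
    (hd : 0 < d)
    (hN : ∀ Q : Ideal (MvPolynomial σ K), Q.IsPrime → P0 ≤ Q → ¬ Q.IsMaximal →
      ringKrullDim (MvPolynomial σ K ⧸ Q) = 1 → lo (hilb Q) 1 ≠ ⊤ →
      ∑ p ∈ T, (m p : ℝ≥0∞) * up (sam Q (pt p)) 1 ≤ d * lo (hilb Q) 1)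
    (k : ℕ) (I : Ideal (MvPolynomial σ K)) (hI0 : P0 ≤ I) :
    ∑ p ∈ T, (m p : ℝ≥0∞) ^ (k + 1) * up (sam I (pt p)) (k + 1) ≤
      (d : ℝ≥0∞) ^ (k + 1) * lo (hilb I) (k + 1) := by
  have hd0 : (d : ℝ≥0∞) ≠ 0 := by exact_mod_cast hd.ne'
  induction k generalizing I with
  | zero =>
    induction I using IsNoetherian.induction with
    | hgt I ihI =>
      by_cases hT : I = ⊤
      · simp [hT, up_top]
      by_cases hI : Ideal.IsPrime I
      · by_cases hm : Ideal.IsMaximal I
        · simp [up_eq_zero_of_isMaximal hm]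
        by_cases hlo : lo (hilb I) 1 = ⊤
        · simp [hlo, hd0]
        simpa using hN I hI hI0 hm (dim_eq_one hI hm hlo) hlo
      · obtain ⟨I', J, h1, h2, h3, h4⟩ := split_of_not_prime hI hT
        calc _ ≤ ∑ p ∈ T, ((m p : ℝ≥0∞) ^ (0 + 1) * up (sam I' (pt p)) (0 + 1) +
              (m p : ℝ≥0∞) ^ (0 + 1) * up (sam J (pt p)) (0 + 1)) := by
              refine Finset.sum_le_sum fun p _ => ?_
              rw [← mul_add]; gcongr; exact h4 (pt p) _
          _ ≤ _ := by
              rw [Finset.sum_add_distrib]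
              refine (add_le_add (ihI I' h1 (hI0.trans h1.le)) (ihI J h2 (hI0.trans h2.le))).trans ?_
              rw [← mul_add]; gcongr; exact h3 _
  | succ k ih =>
    induction I using IsNoetherian.induction with
    | hgt I ihI =>
      by_cases hT : I = ⊤
      · simp [hT, up_top]
      by_cases hI : Ideal.IsPrime I
      · by_cases hlo : lo (hilb I) (k + 1 + 1) = ⊤
        · simp [hlo, hd0]
        by_cases hlo0 : lo (hilb I) (k + 1 + 1) = 0
        · have : ∀ p, up (sam I (pt p)) (k + 1 + 1) = 0 := fun p =>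
            nonpos_iff_eq_zero.1 (hlo0 ▸ up_le_lo (pt p) _ I)
          simp [this]
        by_contra hcon
        rw [not_le] at hcon
        set δ := lo (hilb I) (k + 1 + 1) with hδ
        set x := ∑ p ∈ T, (m p : ℝ≥0∞) ^ (k + 1 + 1) * up (sam I (pt p)) (k + 1 + 1) with hx
        have hxt : x ≠ ⊤ := by
          rw [hx]
          refine ENNReal.sum_ne_top.2 fun p _ => ENNReal.mul_ne_top (by simp) ?_
          exact ne_top_of_le_ne_top hlo (up_le_lo (pt p) _ I)
        have hδ0 : 0 < δ.toReal := ENNReal.toReal_pos hlo0 hlo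
        have hcon' : (d : ℝ) ^ (k + 1 + 1) < x.toReal / δ.toReal := by
          rw [lt_div_iff₀ hδ0]
          have := (ENNReal.toReal_lt_toReal (ENNReal.mul_ne_top (by simp) hlo) hxt).2 hcon
          simpa using this
        obtain ⟨a, b, ha, hb, h1, h2⟩ := exists_slope (by exact_mod_cast hd) k hcon'
        have h1' : ∑ p ∈ T, ((b * m p : ℕ) : ℝ≥0∞) ^ (k + 1 + 1) * up (sam I (pt p)) (k + 1 + 1) <
            (a : ℝ≥0∞) ^ (k + 1 + 1) * δ := by
          have e : ∑ p ∈ T, ((b * m p : ℕ) : ℝ≥0∞) ^ (k + 1 + 1) * up (sam I (pt p)) (k + 1 + 1)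
              = (b : ℝ≥0∞) ^ (k + 1 + 1) * x := by
            rw [hx, Finset.mul_sum]
            refine Finset.sum_congr rfl fun p _ => ?_
            push_cast; rw [mul_pow, mul_assoc]
          rw [e, ← ENNReal.toReal_lt_toReal (ENNReal.mul_ne_top (by simp) hxt)
            (ENNReal.mul_ne_top (by simp) hlo)]
          rw [div_mul_eq_mul_div, div_lt_iff₀ hδ0, mul_comm] at h1
          simpa using h1
        obtain ⟨s, hs1, hs⟩ := exists_gt T (hilb I) (fun p => sam I (pt p)) (fun p => b * m p) a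
          (k + 1 + 1) ha (by omega) (fun p => sam_zero I (pt p)) h1'
        obtain ⟨G, hG1, hG2, hG3⟩ := exists_section I T pt (fun p => b * m p * s) (a * s) hs
        have h3 := ih (I ⊔ Ideal.span {G}) (hI0.trans le_sup_left)
        have h4 := lo_step_prime hI hG2 (I' := I ⊔ Ideal.span {G}) le_sup_left
          (Ideal.mem_sup_right (Ideal.mem_span_singleton_self _)) (c := a * s)
          (Nat.mul_pos ha hs1) hG1 (k + 1)
        have h5 : ((k + 1 + 1) * (b * s) : ℕ) * x ≤
            ∑ p ∈ T, (m p : ℝ≥0∞) ^ (k + 1) * up (sam (I ⊔ Ideal.span {G}) (pt p)) (k + 1) := by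
          rw [hx, Finset.mul_sum]
          refine Finset.sum_le_sum fun p hp => ?_
          by_cases hm : m p = 0
          · simp [hm]
          have h6 := up_step_any (c := b * m p * s)
            (Nat.mul_pos (Nat.mul_pos hb (Nat.pos_of_ne_zero hm)) hs1) (hG3 p hp) (k + 1)
          refine le_trans (le_of_eq ?_) (mul_le_mul_right h6 _)
          push_cast; ring
        have h7 : ((k + 1 + 1) * (b * s) : ℕ) * x ≤
            (d : ℝ≥0∞) ^ (k + 1) * (((k + 1 + 1) * (a * s) : ℕ) * δ) :=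
          h5.trans (h3.trans (mul_le_mul_right h4 _))
        rw [← ENNReal.toReal_le_toReal (ENNReal.mul_ne_top (ENNReal.natCast_ne_top _) hxt)
          (ENNReal.mul_ne_top (by simp) (ENNReal.mul_ne_top (ENNReal.natCast_ne_top _) hlo))] at h7
        simp only [ENNReal.toReal_mul, ENNReal.toReal_pow, ENNReal.toReal_natCast] at h7
        push_cast at h7
        rw [div_mul_eq_mul_div, lt_div_iff₀ hδ0] at h2
        have hs' : (0 : ℝ) < (k + 1 + 1) * s := by
          have : (0 : ℝ) < s := by exact_mod_cast hs1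
          positivity
        have := mul_lt_mul_of_pos_left h2 hs'
        nlinarith
      · obtain ⟨I', J, h1, h2, h3, h4⟩ := split_of_not_prime hI hT
        calc _ ≤ ∑ p ∈ T, ((m p : ℝ≥0∞) ^ (k + 1 + 1) * up (sam I' (pt p)) (k + 1 + 1) +
              (m p : ℝ≥0∞) ^ (k + 1 + 1) * up (sam J (pt p)) (k + 1 + 1)) := by
              refine Finset.sum_le_sum fun p _ => ?_
              rw [← mul_add]; gcongr; exact h4 (pt p) _
          _ ≤ _ := by
              rw [Finset.sum_add_distrib]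
              refine (add_le_add (ihI I' h1 (hI0.trans h1.le)) (ihI J h2 (hI0.trans h2.le))).trans ?_
              rw [← mul_add]; gcongr; exact h3 _

end Pool.Agent.Lib.MP_bc213e_ag
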