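import Pool.Agent.Lib.MP_bc213e_ag.Eff

namespace Pool.Agent.Lib.MP_bc213e_ag

open MvPolynomial Filter Module
open scoped ENNReal

variable {K : Type*} [Field K] {σ : Type*} {ι : Type*}

lemma QEff.rEff {P0 : Ideal (MvPolynomial σ K)} {P : ι → Ideal (MvPolynomial σ K)} {d : ℚ}
    {m : ι → ℚ} (h : QEff P0 P d m) : REff P0 P d m := by
  obtain ⟨t, ht, F, h1, h2, h3⟩ := h
  exact ⟨t, by exact_mod_cast ht, F, h1, h2, h3⟩

lemma REff.qEff {P0 : Ideal (MvPolynomial σ K)} {P : ι → Ideal (MvPolynomial σ K)} {d : ℚ}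
    {m : ι → ℚ} (h0 : P0.IsPrime) (hP : ∀ i, (P i).IsPrime) (h : REff P0 P d m) :
    QEff P0 P d m := h.nat h0 hP

lemma curveDeg_eq (Q : Ideal (MvPolynomial σ K)) : curveDeg Q = (lo (hilb Q) 1).toReal := by
  simp [curveDeg, lo]

lemma curveMult_eq (Q : Ideal (MvPolynomial σ K)) (p : σ → K) :
    curveMult Q p = (up (sam Q p) 1).toReal := by
  simp [curveMult, up]

lemma isMaximal_of_finite [Finite σ] [IsAlgClosed K] {Q : Ideal (MvPolynomial σ K)}
    (hQ : Q.IsPrime) (h : (zeroLocus K Q).Finite) : Q.IsMaximal := by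
  have h1 : h.toFinset.inf (fun p => vanishingIdeal K {p}) ≤ Q := by
    refine le_trans ?_ (IsPrime.vanishingIdeal_zeroLocus (K := K) Q).le
    intro f hf x hx
    have := (Finset.inf_le (f := fun p => vanishingIdeal K {p}) (h.mem_toFinset.2 hx)) hf
    exact this x rfl
  obtain ⟨p, -, hp⟩ := hQ.inf_le'.1 h1
  have hmax : (vanishingIdeal K {p}).IsMaximal := inferInstance
  rwa [← hmax.eq_of_le hQ.ne_top hp]

lemma exists_scale [Finite ι] {d : ℚ} {m : ι → ℚ} (hd : 0 ≤ d) (hm : ∀ i, 0 ≤ m i) :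
    ∃ (D d' : ℕ) (m' : ι → ℕ), 0 < D ∧ (d' : ℚ) = D * d ∧ ∀ i, (m' i : ℚ) = D * m i := by
  classical
  have := Fintype.ofFinite ι
  have key : ∀ (q : ℚ) (D : ℕ), 0 ≤ q → q.den ∣ D → ∃ n : ℕ, (n : ℚ) = D * q := by
    rintro q _ hq ⟨c, rfl⟩
    refine ⟨c * q.num.toNat, ?_⟩
    have e : ((q.num.toNat : ℕ) : ℚ) = q.den * q := by
      rw [mul_comm, Rat.mul_den_eq_num]
      exact_mod_cast congrArg (Int.cast : ℤ → ℚ) (Int.toNat_of_nonneg (Rat.num_nonneg.2 hq))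
    push_cast; rw [e]; ring
  obtain ⟨d', hd'⟩ := key d (d.den * ∏ i, (m i).den) hd (Dvd.intro _ rfl)
  choose m' hm' using fun i => key (m i) (d.den * ∏ i, (m i).den) (hm i)
    (Dvd.dvd.mul_left (Finset.dvd_prod_of_mem _ (Finset.mem_univ i)) _)
  exact ⟨_, d', m', Nat.mul_pos d.den_pos (Finset.prod_pos fun i _ => (m i).den_pos), hd', hm'⟩

variable {P0 : Ideal (MvPolynomial σ K)} {P : ι → Ideal (MvPolynomial σ K)} {d : ℚ} {m : ι → ℚ}

/-- Kleiman's inequality, numerical form. -/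
theorem CurveNef.pow_le [Finite σ] [Finite ι] [IsAlgClosed K] (hN : CurveNef P0 P d m)
    (hd : 0 < d)
    (hdisj : ∀ i j, i ≠ j → Disjoint (zeroLocus K (P i)) (zeroLocus K (P j)))
    (I : Ideal (MvPolynomial σ K)) (hI : P0 ≤ I) (T : Finset (ι × (σ → K)))
    (hT : ∀ x ∈ T, x.2 ∈ zeroLocus K (P x.1))
    (hfin : ∀ x ∈ T, (zeroLocus K I ∩ zeroLocus K (P x.1)).Finite)
    (k δ : ℕ) (c : ℝ≥0∞) (hc0 : c ≠ 0) (hct : c ≠ ⊤)
    (h1 : ∀ x ∈ T, c ≤ up (sam I x.2) (k + 1)) (h2 : lo (hilb I) (k + 1) ≤ δ * c) :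
    ∑ x ∈ T, m x.1 ^ (k + 1) ≤ δ * d ^ (k + 1) := by
  obtain ⟨D, d', m', hD, hd', hm'⟩ := exists_scale hd.le hN.1
  have hD' : (0 : ℚ) < D := by exact_mod_cast hD
  have hd0 : 0 < d' := by
    have : (0 : ℚ) < d' := by rw [hd']; positivity
    exact_mod_cast this
  have key := kleiman I T (fun x => x.2) (fun x => m' x.1) d' hd0 (by
    intro Q hQ hIQ hmax hdim hlo
    by_cases hj : ∃ j, P j ≤ Q
    · obtain ⟨j, hj⟩ := hj
      refine le_trans (le_of_eq (Finset.sum_eq_zero fun x hx => ?_)) (by simp)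
      by_cases hx1 : x.1 = j
      · refine absurd (isMaximal_of_finite hQ ((hfin x hx).subset ?_)) hmax
        exact Set.subset_inter (zeroLocus_anti_mono hIQ) (zeroLocus_anti_mono (hx1 ▸ hj))
      · have : ¬ Q ≤ vanishingIdeal K {x.2} := fun h =>
          Set.disjoint_left.1 (hdisj _ _ hx1) (hT x hx) fun f hf => h (hj hf) x.2 rfl
        rw [up_eq_zero_of_bdd 0 0 fun s => (sam_eq_zero_of_not_le this s).le, mul_zero]
    · push Not at hj
      have h3 := hN.2 Q hQ (hI.trans hIQ) hdim hj T hT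
      have hup : ∀ p, up (sam Q p) 1 ≠ ⊤ := fun p => ne_top_of_le_ne_top hlo (up_le_lo p _ Q)
      rw [← ENNReal.toReal_le_toReal
        (ENNReal.sum_ne_top.2 fun x _ => ENNReal.mul_ne_top (by simp) (hup _))
        (ENNReal.mul_ne_top (by simp) hlo),
        ENNReal.toReal_sum fun x _ => ENNReal.mul_ne_top (by simp) (hup _)]
      simp only [ENNReal.toReal_mul, ENNReal.toReal_natCast]
      simp only [curveDeg_eq, curveMult_eq] at h3
      have e1 : (d' : ℝ) = D * d := by exact_mod_cast congrArg (Rat.cast : ℚ → ℝ) hd'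
      have e2 : ∀ i, (m' i : ℝ) = D * m i := fun i => by
        exact_mod_cast congrArg (Rat.cast : ℚ → ℝ) (hm' i)
      simp only [e1, e2, mul_assoc, ← Finset.mul_sum]
      exact mul_le_mul_of_nonneg_left h3 (by positivity)) k I le_rfl
  have h3 : (∑ x ∈ T, (m' x.1 : ℝ≥0∞) ^ (k + 1)) * c ≤ ((δ : ℝ≥0∞) * d' ^ (k + 1)) * c := by
    calc _ ≤ ∑ x ∈ T, (m' x.1 : ℝ≥0∞) ^ (k + 1) * up (sam I x.2) (k + 1) := by
          rw [Finset.sum_mul]
          exact Finset.sum_le_sum fun x hx => mul_le_mul_right (h1 x hx) _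
      _ ≤ _ := key
      _ ≤ (d' : ℝ≥0∞) ^ (k + 1) * (δ * c) := mul_le_mul_right h2 _
      _ = _ := by ring
  have h4 := (ENNReal.mul_le_mul_iff_left hc0 hct).1 h3
  have h5 : ∑ x ∈ T, m' x.1 ^ (k + 1) ≤ δ * d' ^ (k + 1) := by exact_mod_cast h4
  have h6 : ∑ x ∈ T, (m' x.1 : ℚ) ^ (k + 1) ≤ δ * (d' : ℚ) ^ (k + 1) := by exact_mod_cast h5
  simp only [hd', hm', mul_pow, ← Finset.mul_sum] at h6
  have hDk : (0 : ℚ) < (D : ℚ) ^ (k + 1) := by positivity
  rw [mul_left_comm] at h6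
  exact le_of_mul_le_mul_left h6 hDk

/-- Inequality for an affine plane contained in the variety. -/
theorem CurveNef.plane [Fintype σ] [Finite ι] [IsAlgClosed K] (hN : CurveNef P0 P d m)
    (hd : 0 < d)
    (hdisj : ∀ i j, i ≠ j → Disjoint (zeroLocus K (P i)) (zeroLocus K (P j)))
    (L : AffineSubspace K (σ → K)) (hL : P0 ≤ vanishingIdeal K (L : Set (σ → K)))
    (hk : 1 ≤ finrank K L.direction) (T : Finset (ι × (σ → K)))
    (hT : ∀ x ∈ T, x.2 ∈ zeroLocus K (P x.1)) (hTL : ∀ x ∈ T, x.2 ∈ L)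
    (hfin : ∀ x ∈ T, ((L : Set (σ → K)) ∩ zeroLocus K (P x.1)).Finite) :
    ∑ x ∈ T, m x.1 ^ finrank K L.direction ≤ d ^ finrank K L.direction := by
  rcases T.eq_empty_or_nonempty with rfl | ⟨x0, hx0⟩
  · simp; positivity
  obtain ⟨k, hk'⟩ : ∃ k, finrank K L.direction = k + 1 := ⟨_, (Nat.sub_add_cancel hk).symm⟩
  have := hN.pow_le hd hdisj _ hL T hT
    (fun x hx => by rw [zeroLocus_vanishingIdeal_plane L (hTL x hx)]; exact hfin x hx) k 1
    (lo (NN K (k + 1)) (k + 1)) (lo_NN_pos _ (by omega)).ne' (lo_NN_ne_top _)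
    (fun x hx => hk' ▸ (plane_facts L (hTL x hx)).2.2)
    (by simpa using hk' ▸ (plane_facts L (hTL x0 hx0)).2.1)
  simpa [hk'] using this

/-- Inequality for a line contained in the variety and in no centre. -/
theorem CurveNef.line [Fintype σ] [IsAlgClosed K] (hN : CurveNef P0 P d m)
    (L : AffineSubspace K (σ → K)) {p : σ → K} (hp : p ∈ L)
    (hL : P0 ≤ vanishingIdeal K (L : Set (σ → K))) (hk : finrank K L.direction = 1)
    (hP : ∀ i, ¬ (L : Set (σ → K)) ⊆ zeroLocus K (P i)) (T : Finset (ι × (σ → K)))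
    (hT : ∀ x ∈ T, x.2 ∈ zeroLocus K (P x.1)) (hTL : ∀ x ∈ T, x.2 ∈ L) :
    ∑ x ∈ T, m x.1 ≤ d := by
  obtain ⟨h1, h2, h3⟩ := plane_facts L hp
  rw [hk] at h2 h3
  set Q := vanishingIdeal K (L : Set (σ → K))
  set c := lo (NN K 1) 1
  have hc0 : 0 < c := lo_NN_pos 1 le_rfl
  have hct : c ≠ ⊤ := lo_NN_ne_top 1
  have hlo : lo (hilb Q) 1 = c := le_antisymm h2 (h3.trans (up_le_lo p 1 Q))
  have hmax : ¬ Q.IsMaximal := fun h => by
    rw [up_eq_zero_of_isMaximal h p 0] at h3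
    exact absurd (hc0.trans_le h3) (lt_irrefl _)
  have h4 := hN.2 Q h1 hL (dim_eq_one h1 hmax (hlo ▸ hct))
    (fun i h => hP i (le_zeroLocus_iff_le_vanishingIdeal.2 h)) T hT
  have h5 : ∀ x ∈ T, curveMult Q x.2 = c.toReal := by
    intro x hx
    have := (plane_facts L (hTL x hx)).2.2
    rw [hk] at this
    rw [curveMult_eq, le_antisymm ((up_le_lo _ 1 Q).trans h2) this]
  rw [curveDeg_eq, hlo, Finset.sum_congr rfl fun x hx => by rw [h5 x hx], ← Finset.sum_mul] at h4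
  have := le_of_mul_le_mul_right h4 (ENNReal.toReal_pos hc0.ne' hct)
  exact_mod_cast this

lemma finrank_line {p q : σ → K} (h : p ≠ q) : finrank K (line[K, p, q]).direction = 1 := by
  rw [direction_affineSpan, vectorSpan_pair]
  exact finrank_span_singleton (vsub_ne_zero.2 h)

end Pool.Agent.Lib.MP_bc213e_ag
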