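import Pool.Agent.Lib.MP_bc213e_ag.Kleiman

namespace Pool.Agent.Lib.MP_bc213e_ag

open MvPolynomial Filter Module
open scoped ENNReal

variable {K : Type*} [Field K] {σ : Type*}

/-- Number of monomials of degree at most `s` in `k` variables. -/
noncomputable def NN (K : Type*) [Field K] (k s : ℕ) : ℕ :=
  finrank K (restrictTotalDegree (Fin k) K s)

lemma NN_eq (k s : ℕ) :
    NN K k s = Nat.card {n : Fin k →₀ ℕ | (n.sum fun _ e => e) ≤ s} :=
  Module.finrank_eq_nat_card_basis (basisRestrictSupport K _)

lemma NN_le (k s : ℕ) : NN K k s ≤ (s + 1) ^ k := by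
  rw [NN_eq]
  have : Nat.card (Fin k → Fin (s + 1)) = (s + 1) ^ k := by simp
  rw [← this]
  refine Nat.card_le_card_of_injective
    (fun n j => ⟨n.1 j, Nat.lt_succ_of_le (le_trans ?_ n.2)⟩) ?_
  · rw [Finsupp.sum_fintype _ _ (by simp)]
    exact Finset.single_le_sum (f := fun j => n.1 j) (fun _ _ => Nat.zero_le _) (Finset.mem_univ j)
  · intro a b h
    apply Subtype.ext
    ext j
    exact congrArg Fin.val (congrFun h j)

lemma le_NN (k q s : ℕ) (h : k * q ≤ s) : (q + 1) ^ k ≤ NN K k s := by
  have hf0 : Module.Finite K (restrictTotalDegree (Fin k) K s) := inferInstance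
  have hfin : Finite {n : Fin k →₀ ℕ | (n.sum fun _ e => e) ≤ s} :=
    @Module.Finite.finite_basis K (restrictTotalDegree (Fin k) K s) _ _ _ _ _ hf0
      (basisRestrictSupport K _)
  rw [NN_eq]
  have : Nat.card (Fin k → Fin (q + 1)) = (q + 1) ^ k := by simp
  rw [← this]
  refine Nat.card_le_card_of_injective
    (fun f => ⟨Finsupp.equivFunOnFinite.symm fun j => (f j : ℕ), ?_⟩) ?_
  · simp only [Set.mem_ofPred_eq]
    rw [Finsupp.sum_fintype _ _ (by simp)]
    refine le_trans ?_ h
    calc _ ≤ ∑ _j : Fin k, q := Finset.sum_le_sum fun j _ => by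
          simpa using Nat.lt_succ_iff.1 (f j).2
      _ = k * q := by simp
  · intro a b h
    have := Finsupp.equivFunOnFinite.symm.injective (congrArg Subtype.val h)
    funext j
    exact Fin.ext (congrFun this j)

lemma lo_NN_ne_top (k : ℕ) : lo (NN K k) k ≠ ⊤ := by
  refine ne_top_of_le_ne_top (ENNReal.ofReal_ne_top (r := 2 ^ k)) ((lo_le_up _ _).trans ?_)
  apply up_le_of_ev
  filter_upwards [eventually_ge_atTop 1] with s hs
  have h1 : (NN K k s : ℝ) ≤ (s + 1) ^ k := by exact_mod_cast NN_le k s
  have h2 : (1 : ℝ) ≤ s := by exact_mod_cast hs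
  rw [← mul_pow]
  exact h1.trans (pow_le_pow_left₀ (by positivity) (by linarith) _)

lemma lo_NN_pos (k : ℕ) (hk : 1 ≤ k) : 0 < lo (NN K k) k := by
  have hk' : (0 : ℝ) < k := by exact_mod_cast hk
  refine lt_of_lt_of_le (ENNReal.ofReal_pos.2 (by positivity : (0 : ℝ) < (1 / k) ^ k)) ?_
  apply le_lo_of_ev
  filter_upwards with s
  have h1 : ((s / k : ℕ) + 1 : ℝ) ^ k ≤ NN K k s := by
    exact_mod_cast le_NN (K := K) k (s / k) s (Nat.mul_div_le s k)
  rw [← mul_pow]
  refine le_trans (pow_le_pow_left₀ (by positivity) ?_ _) h1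
  have h2 : s < k * (s / k + 1) := Nat.lt_mul_div_succ s hk
  have h3 : (s : ℝ) < k * ((s / k : ℕ) + 1) := by exact_mod_cast h2
  rw [one_div, inv_mul_le_iff₀ hk']
  exact h3.le

/-- Restriction of polynomials to the affine plane through `p` spanned by the vectors `v j`. -/
noncomputable def planeHom {k : ℕ} (p : σ → K) (v : Fin k → σ → K) :
    MvPolynomial σ K →ₐ[K] MvPolynomial (Fin k) K :=
  aeval fun i => C (p i) + ∑ j, C (v j i) * X j

lemma eval_planeHom {k : ℕ} (p : σ → K) (v : Fin k → σ → K) (y : Fin k → K)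
    (f : MvPolynomial σ K) : eval y (planeHom p v f) = eval (p + ∑ j, y j • v j) f := by
  induction f using MvPolynomial.induction_on with
  | C a => simp [planeHom]
  | add f g h1 h2 => simp [h1, h2]
  | mul_X f i h =>
    rw [map_mul, map_mul, map_mul, h]
    congr 1
    simp [planeHom, mul_comm]

lemma totalDegree_aeval_le {τ : Type*} (g : σ → MvPolynomial τ K) (hg : ∀ i, (g i).totalDegree ≤ 1)
    (f : MvPolynomial σ K) : (aeval g f).totalDegree ≤ f.totalDegree := by
  classical
  conv_lhs => rw [f.as_sum]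
  rw [map_sum]
  refine totalDegree_finsetSum_le fun n hn => ?_
  rw [aeval_monomial]
  refine (totalDegree_mul _ _).trans ?_
  have h1 : (algebraMap K (MvPolynomial τ K) (coeff n f)).totalDegree = 0 := totalDegree_C _
  rw [h1, zero_add, Finsupp.prod]
  refine (totalDegree_finsetProd _ _).trans (le_trans ?_ (le_totalDegree hn))
  refine Finset.sum_le_sum fun i _ => (totalDegree_pow _ _).trans ?_
  simpa using Nat.mul_le_mul_left (n i) (hg i)

lemma totalDegree_planeHom_le {k : ℕ} (p : σ → K) (v : Fin k → σ → K) (f : MvPolynomial σ K) :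
    (planeHom p v f).totalDegree ≤ f.totalDegree := by
  refine totalDegree_aeval_le _ (fun i => (totalDegree_add _ _).trans ?_) f
  rw [totalDegree_C, zero_max]
  refine totalDegree_finsetSum_le fun j _ => (totalDegree_mul _ _).trans ?_
  simp [totalDegree_X]

lemma planeHom_surjective [Fintype σ] {k : ℕ} (p : σ → K) {v : Fin k → σ → K}
    (hv : LinearIndependent K v) : Function.Surjective (planeHom p v) := by
  classical
  have hX : ∀ j, X j ∈ (planeHom p v).range := by
    intro j
    obtain ⟨g, hg⟩ := (Finsupp.linearCombination K v).exists_leftInverse_of_injective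
      (LinearMap.ker_eq_bot.2 hv)
    let lam : (σ → K) →ₗ[K] K := (Finsupp.lapply j).comp g
    have hlam : ∀ l, lam (v l) = if l = j then 1 else 0 := by
      intro l
      have := congrArg (fun F => F (Finsupp.single l (1 : K)) j) hg
      simpa [lam, Finsupp.single_apply] using this
    refine ⟨∑ i, C (lam (Pi.single i 1)) * (X i - C (p i)), ?_⟩
    have e : ∀ l, ∑ i, lam (Pi.single i 1) * v l i = if l = j then 1 else 0 := by
      intro l
      rw [← hlam l]
      conv_rhs => rw [pi_eq_sum_univ' (v l), map_sum]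
      exact Finset.sum_congr rfl fun i _ => by simp [mul_comm]
    have e2 : ∀ i, planeHom p v (C (lam (Pi.single i 1)) * (X i - C (p i)))
        = ∑ l, C (lam (Pi.single i 1) * v l i) * X l := by
      intro i
      simp [planeHom, Finset.mul_sum, mul_assoc]
    change planeHom p v _ = _
    rw [map_sum, Finset.sum_congr rfl fun i _ => e2 i, Finset.sum_comm]
    rw [Finset.sum_congr rfl fun l _ => by rw [← Finset.sum_mul, ← map_sum, e l]]
    simp
  intro f
  have : (planeHom p v).range = ⊤ := by
    rw [eq_top_iff, ← adjoin_range_X, Algebra.adjoin_le_iff]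
    rintro _ ⟨j, rfl⟩
    exact hX j
  exact (this ▸ Algebra.mem_top : f ∈ (planeHom p v).range)

lemma hilb_ker_le {k : ℕ} (p : σ → K) (v : Fin k → σ → K) (s : ℕ) :
    hilb (RingHom.ker (planeHom p v)) s ≤ NN K k s := by
  unfold hilb NN
  have hinj := Ideal.kerLiftAlg_injective (planeHom p v)
  rw [(Submodule.equivMapOfInjective (Ideal.kerLiftAlg (planeHom p v)).toLinearMap hinj _).finrank_eq]
  apply Submodule.finrank_mono
  rintro _ ⟨_, ⟨f, hf, rfl⟩, rfl⟩
  simp only [SetLike.mem_coe, mem_restrictTotalDegree] at hf ⊢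
  exact (totalDegree_planeHom_le p v f).trans hf

lemma NN_le_sam [Fintype σ] {k : ℕ} (p : σ → K) {v : Fin k → σ → K}
    (hv : LinearIndependent K v) (s : ℕ) :
    NN K k s ≤ sam (RingHom.ker (planeHom p v)) p (s + 1) := by
  classical
  set J := idealOfVars (Fin k) K ^ (s + 1) with hJ
  have h1 : RingHom.ker (planeHom p v) ⊔ vanishingIdeal K {p} ^ (s + 1) ≤
      J.comap (planeHom p v) := by
    refine sup_le (fun f hf => by simp [RingHom.mem_ker.1 hf]) ?_
    rw [← Ideal.map_le_iff_le_comap, Ideal.map_pow]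
    refine Ideal.pow_right_mono ?_ _
    rw [pt_eq_span, Ideal.map_span, Ideal.span_le]
    rintro _ ⟨_, ⟨i, rfl⟩, rfl⟩
    have : planeHom p v (X i - C (p i)) = ∑ j, C (v j i) * X j := by simp [planeHom]
    simp only [this, SetLike.mem_coe]
    exact Ideal.sum_mem _ fun j _ => Ideal.mul_mem_left _ _ (Ideal.subset_span ⟨j, rfl⟩)
  let ψ := Ideal.quotientMapₐ J (planeHom p v) h1
  have hψ : Function.Surjective ψ := Ideal.quotientMap_surjective (H := h1) (planeHom_surjective p hv)
  have hfin : Module.Finite K (MvPolynomial (Fin k) K ⧸ J) :=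
    Module.Finite.of_surjective ψ.toLinearMap hψ
  refine le_trans ?_ (LinearMap.finrank_le_finrank_of_surjective (f := ψ.toLinearMap) hψ)
  refine LinearMap.finrank_le_finrank_of_injective
    (f := (Ideal.Quotient.mkₐ K J).toLinearMap ∘ₗ (restrictTotalDegree (Fin k) K s).subtype) ?_
  rw [injective_iff_map_eq_zero]
  intro f hf
  have hf' : f.1 ∈ J := Ideal.Quotient.eq_zero_iff_mem.1 hf
  rw [hJ, mem_pow_idealOfVars_iff] at hf'
  apply Subtype.ext
  by_contra hne
  obtain ⟨n, hn⟩ := support_nonempty.2 hne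
  have h2 := hf' n hn
  have h3 := (le_totalDegree hn).trans ((mem_restrictTotalDegree _ _ _).1 f.2)
  rw [Finsupp.degree_apply] at h2
  have h4 : ∑ i ∈ n.support, n i ≤ s := h3
  omega

lemma ker_planeHom [Infinite K] (L : AffineSubspace K (σ → K)) {p : σ → K} (hp : p ∈ L) {k : ℕ}
    (b : Basis (Fin k) K L.direction) :
    RingHom.ker (planeHom p fun j => (b j : σ → K)) = vanishingIdeal K (L : Set (σ → K)) := by
  ext f
  rw [RingHom.mem_ker, mem_vanishingIdeal_iff]
  constructor
  · intro hf x hx
    have h1 : x - p ∈ L.direction := AffineSubspace.vsub_mem_direction hx hp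
    have h2 := congrArg Subtype.val (b.sum_repr ⟨x - p, h1⟩)
    have h3 := eval_planeHom p (fun j => (b j : σ → K)) (b.repr ⟨x - p, h1⟩) f
    simp only [AddSubmonoidClass.coe_finsetSum, SetLike.val_smul] at h2
    rw [hf, h2, map_zero, add_sub_cancel] at h3
    exact h3.symm
  · intro hf
    apply MvPolynomial.funext
    intro y
    rw [eval_planeHom, map_zero]
    apply hf
    have : (∑ j, y j • (b j : σ → K)) ∈ L.direction :=
      Submodule.sum_mem _ fun j _ => Submodule.smul_mem _ _ (b j).2
    have h2 := AffineSubspace.vadd_mem_of_mem_direction this hp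
    rwa [vadd_eq_add, add_comm] at h2

/-- Degree and multiplicities of an affine plane. -/
lemma plane_facts [Fintype σ] [Infinite K] (L : AffineSubspace K (σ → K)) {p : σ → K}
    (hp : p ∈ L) : (vanishingIdeal K (L : Set (σ → K))).IsPrime ∧
      lo (hilb (vanishingIdeal K (L : Set (σ → K)))) (finrank K L.direction) ≤
        lo (NN K (finrank K L.direction)) (finrank K L.direction) ∧
      lo (NN K (finrank K L.direction)) (finrank K L.direction) ≤
        up (sam (vanishingIdeal K (L : Set (σ → K))) p) (finrank K L.direction) := by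
  set k := finrank K L.direction
  let b : Basis (Fin k) K L.direction := Module.finBasis K L.direction
  have hv : LinearIndependent K fun j => (b j : σ → K) :=
    b.linearIndependent.map' L.direction.subtype (Submodule.ker_subtype _)
  rw [← ker_planeHom L hp b]
  refine ⟨RingHom.ker_isPrime _, lo_mono _ (Eventually.of_forall (hilb_ker_le p _)), ?_⟩
  refine (lo_shift _ k 1).trans ((lo_le_up _ _).trans (up_mono _ ?_))
  filter_upwards [eventually_ge_atTop 1] with s hs
  have := NN_le_sam p hv (s - 1)
  rwa [Nat.sub_add_cancel hs] at this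

lemma zeroLocus_vanishingIdeal_plane [Fintype σ] (L : AffineSubspace K (σ → K)) {p : σ → K}
    (hp : p ∈ L) : zeroLocus K (vanishingIdeal K (L : Set (σ → K))) = L := by
  classical
  refine le_antisymm (fun x hx => ?_) (zeroLocus_vanishingIdeal_le _)
  by_contra hxL
  have h1 : x - p ∉ L.direction := fun h => hxL (by
    have := AffineSubspace.vadd_mem_of_mem_direction h hp
    simpa using this)
  obtain ⟨lam, h2, h3⟩ := Submodule.exists_dual_map_eq_bot_of_notMem h1 inferInstance
  let f : MvPolynomial σ K := ∑ i, C (lam (Pi.single i 1)) * (X i - C (p i))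
  have hf : ∀ y : σ → K, aeval y f = lam (y - p) := by
    intro y
    conv_rhs => rw [pi_eq_sum_univ' (y - p), map_sum]
    simp [f, mul_comm]
  have h4 : f ∈ vanishingIdeal K (L : Set (σ → K)) := by
    intro y hy
    rw [hf]
    have : lam (y - p) ∈ L.direction.map lam :=
      ⟨_, AffineSubspace.vsub_mem_direction hy hp, rfl⟩
    rwa [h3] at this
  exact h2 (hf x ▸ hx f h4)

end Pool.Agent.Lib.MP_bc213e_ag
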