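import Pool.Agent.Lib.MP_bc213e_ag.Nef

namespace Pool.Agent.Lib.MP_bc213e_ag

open MvPolynomial Filter Module
open scoped ENNReal

variable {K : Type*} [Field K] {σ : Type*} {ι : Type*}

lemma zeroLocus_nonempty [Finite σ] [IsAlgClosed K] {Q : Ideal (MvPolynomial σ K)}
    (hQ : Q.IsPrime) : (zeroLocus K Q).Nonempty := by
  by_contra h
  rw [Set.not_nonempty_iff_eq_empty] at h
  have := IsPrime.vanishingIdeal_zeroLocus (K := K) Q
  rw [h, vanishingIdeal_empty] at this
  exact hQ.ne_top this.symm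

lemma exists_outside [Finite ι] [Infinite K] (P : ι → Ideal (MvPolynomial σ K))
    (hP : ∀ i, P i ≠ ⊥) : ∃ q : σ → K, ∀ i, q ∉ zeroLocus K (P i) := by
  classical
  have := Fintype.ofFinite ι
  choose f hf hf0 using fun i => (Submodule.ne_bot_iff _).1 (hP i)
  have h1 : ∏ i, f i ≠ 0 := Finset.prod_ne_zero_iff.2 fun i _ => hf0 i
  by_contra hcon
  push Not at hcon
  apply h1
  apply MvPolynomial.funext
  intro x
  obtain ⟨i, hi⟩ := hcon x
  rw [map_prod, map_zero]
  exact Finset.prod_eq_zero (Finset.mem_univ i) (hi _ (hf i))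

lemma exists_form [Fintype σ] (L : AffineSubspace K (σ → K)) {p x : σ → K} (hp : p ∈ L)
    (hx : x ∉ L) : ∃ f ∈ vanishingIdeal K (L : Set (σ → K)), f ≠ 0 ∧ f.totalDegree ≤ 1 := by
  classical
  have h1 : x - p ∉ L.direction := fun h => hx (by
    have := AffineSubspace.vadd_mem_of_mem_direction h hp
    simpa using this)
  obtain ⟨lam, h2, h3⟩ := Submodule.exists_dual_map_eq_bot_of_notMem h1 inferInstance
  let f : MvPolynomial σ K := ∑ i, C (lam (Pi.single i 1)) * (X i - C (p i))
  have hf : ∀ y : σ → K, aeval y f = lam (y - p) := by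
    intro y
    conv_rhs => rw [pi_eq_sum_univ' (y - p), map_sum]
    simp [f, mul_comm]
  refine ⟨f, fun y hy => ?_, fun h => h2 (by rw [← hf, h, map_zero]), ?_⟩
  · rw [hf]
    have : lam (y - p) ∈ L.direction.map lam :=
      ⟨_, AffineSubspace.vsub_mem_direction hy hp, rfl⟩
    rwa [h3] at this
  · refine totalDegree_finsetSum_le fun i _ => (totalDegree_mul _ _).trans ?_
    rw [totalDegree_C, zero_add]
    exact totalDegree_X_sub_C_le _ _

/-- A proper subvariety lies in a hyperplane or has an honest secant line. -/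
lemma form_or_secant [Fintype σ] [IsAlgClosed K] {Q : Ideal (MvPolynomial σ K)} (hQ : Q.IsPrime)
    {x : σ → K} (hx : x ∉ zeroLocus K Q) :
    (∃ h ∈ Q, h ≠ 0 ∧ h.totalDegree ≤ 1) ∨
      ∃ p ∈ zeroLocus K Q, ∃ q ∈ zeroLocus K Q, p ≠ q ∧
        ¬ (line[K, p, q] : Set (σ → K)) ⊆ zeroLocus K Q := by
  by_cases h : ∀ p ∈ zeroLocus K Q, ∀ q ∈ zeroLocus K Q,
      (line[K, p, q] : Set (σ → K)) ⊆ zeroLocus K Q
  · left
    obtain ⟨p, hp⟩ := zeroLocus_nonempty (K := K) hQ
    have hl : ∀ u ∈ zeroLocus K Q, ∀ v ∈ zeroLocus K Q, ∀ c : K,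
        c • (v - u) + u ∈ zeroLocus K Q := fun u hu v hv c =>
      h u hu v hv (smul_vsub_vadd_mem_affineSpan_pair c u v)
    obtain ⟨e, he0, he1⟩ : ∃ e : K, e ≠ 0 ∧ e ≠ 1 := by
      classical
      obtain ⟨e, he⟩ := Infinite.exists_notMem_finset ({0, 1} : Finset K)
      exact ⟨e, by simpa using he⟩
    let L : AffineSubspace K (σ → K) := ⟨zeroLocus K Q, fun c u v w hu hv hw => by
      have h1 := hl w hw u hu (c / e)
      have h3 := hl w hw v hv (-c / (1 - e))
      have h4 := hl _ h3 _ h1 e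
      have he : (1 : K) - e ≠ 0 := sub_ne_zero.2 he1.symm
      refine (congrArg (· ∈ zeroLocus K Q) ?_).mp h4
      ext i
      simp only [Pi.add_apply, Pi.smul_apply, Pi.sub_apply, smul_eq_mul, vsub_eq_sub,
        vadd_eq_add]
      field_simp
      ring⟩
    obtain ⟨f, hf, hf'⟩ := exists_form L (p := p) (x := x) hp hx
    refine ⟨f, ?_, hf'⟩
    rw [← IsPrime.vanishingIdeal_zeroLocus (K := K) Q]
    exact hf
  · right
    push Not at h
    obtain ⟨p, hp, q, hq, h⟩ := h
    refine ⟨p, hp, q, hq, ?_, h⟩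
    rintro rfl
    apply h
    simpa using hp

theorem proj_main {n : ℕ} [IsAlgClosed K] [Finite ι] (hn : 1 ≤ n)
    (P : ι → Ideal (MvPolynomial (Fin n) K)) (a : ι → ℚ) (hP : ∀ i, (P i).IsPrime)
    (hP0 : ∀ i, P i ≠ ⊥) (ha : ∀ i, 0 ≤ a i)
    (hdisj : ∀ i j, i ≠ j → Disjoint (zeroLocus K (P i)) (zeroLocus K (P j)))
    (hyp : ∀ i, (∃ L : AffineSubspace K (Fin n → K), 1 ≤ finrank K L.direction ∧
        ((L : Set (Fin n → K)) ∩ zeroLocus K (P i)).Finite ∧
        ((n : ℚ) + 1) ^ finrank K L.direction ≤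
          ((L : Set (Fin n → K)) ∩ zeroLocus K (P i)).ncard * a i ^ finrank K L.direction) ∨
      (((∃ h ∈ P i, h ≠ 0 ∧ h.totalDegree ≤ 1) ∨ n + 1 ≤ 2 * a i) ∧ a i ≤ n ∧
        ∀ j, j ≠ i → n + 1 ≤ a i + a j))
    (d : ℚ) (m : ι → ℚ) (hN : CurveNef ⊥ P d m)
    (hΔ : REff ⊥ P (d + (n + 1)) (fun i => m i + a i)) : REff ⊥ P d m := by
  classical
  have h0 : (⊥ : Ideal (MvPolynomial (Fin n) K)).IsPrime := Ideal.isPrime_bot
  obtain ⟨q, hq⟩ := exists_outside P hP0
  have hline : ∀ (p : Fin n → K), p ≠ q → ∀ T : Finset (ι × (Fin n → K)),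
      (∀ x ∈ T, x.2 ∈ zeroLocus K (P x.1)) → (∀ x ∈ T, x.2 = p) → ∑ x ∈ T, m x.1 ≤ d := by
    intro p hpq T h1 h2
    refine hN.line line[K, p, q] (left_mem_affineSpan_pair K p q) bot_le (finrank_line hpq)
      (fun i h => hq i (h (right_mem_affineSpan_pair K p q))) T h1 fun x hx => ?_
    rw [h2 x hx]; exact left_mem_affineSpan_pair K p q
  have hd0 : 0 ≤ d := by
    have : q + (fun _ => 1) ≠ q := fun h => by
      have := congrFun h ⟨0, hn⟩
      simp at this
    simpa using hline _ this ∅ (by simp) (by simp)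
  have hmd : ∀ i, m i ≤ d := by
    intro i
    obtain ⟨p, hp⟩ := zeroLocus_nonempty (K := K) (hP i)
    simpa using hline p (fun h => hq i (h ▸ hp)) {(i, p)} (by simpa using hp) (by simp)
  have hpair : ∀ i j, i ≠ j → m i + m j ≤ d := by
    intro i j hij
    obtain ⟨p, hp⟩ := zeroLocus_nonempty (K := K) (hP i)
    obtain ⟨r, hr⟩ := zeroLocus_nonempty (K := K) (hP j)
    have hpr : p ≠ r := fun h => Set.disjoint_left.1 (hdisj i j hij) hp (h ▸ hr)
    have := hN.line line[K, p, r] (left_mem_affineSpan_pair K p r) bot_le (finrank_line hpr)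
      (fun l h => by
        have h1 : p ∈ zeroLocus K (P l) := h (left_mem_affineSpan_pair K p r)
        have h2 : r ∈ zeroLocus K (P l) := h (right_mem_affineSpan_pair K p r)
        by_cases hl : i = l
        · exact Set.disjoint_left.1 (hdisj j l (hl ▸ hij.symm)) hr h2
        · exact Set.disjoint_left.1 (hdisj i l hl) hp h1) {(i, p), (j, r)}
      (by simp only [Finset.mem_insert, Finset.mem_singleton]
          rintro x (rfl | rfl) <;> assumption)
      (by simp only [Finset.mem_insert, Finset.mem_singleton]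
          rintro x (rfl | rfl)
          · exact left_mem_affineSpan_pair K p r
          · exact right_mem_affineSpan_pair K p r)
    rwa [Finset.sum_pair (by simp [hij])] at this
  rcases hd0.eq_or_lt with rfl | hd
  · exact (REff.zero h0 hP).mono le_rfl hmd
  have hn0 : (0 : ℚ) ≤ n + 1 := by positivity
  by_cases hsmall : ∀ i, ((n : ℚ) + 1) * m i ≤ a i * d
  · exact REff.of_small h0 hP hΔ hd hn0 hsmall
  push Not at hsmall
  obtain ⟨i, hi⟩ := hsmall
  have hform : n + 1 ≤ 2 * a i → ∃ h ∈ P i, h ≠ 0 ∧ h.totalDegree ≤ 1 := by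
    intro h2a
    rcases form_or_secant (hP i) (hq i) with h | ⟨p, hp, r, hr, hpr, hl⟩
    · exact h
    exfalso
    have := hN.line line[K, p, r] (left_mem_affineSpan_pair K p r) bot_le (finrank_line hpr)
      (fun l h => by
        by_cases hil : i = l
        · exact hl (hil ▸ h)
        · exact Set.disjoint_left.1 (hdisj i l hil) hp (h (left_mem_affineSpan_pair K p r)))
      {(i, p), (i, r)}
      (by simp only [Finset.mem_insert, Finset.mem_singleton]
          rintro x (rfl | rfl) <;> assumption)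
      (by simp only [Finset.mem_insert, Finset.mem_singleton]
          rintro x (rfl | rfl)
          · exact left_mem_affineSpan_pair K p r
          · exact right_mem_affineSpan_pair K p r)
    rw [Finset.sum_pair (by simp [hpr])] at this
    have h3 := mul_le_mul_of_nonneg_left this (ha i)
    have h4 := mul_le_mul_of_nonneg_right h2a (hN.1 i)
    simp only at h3
    nlinarith
  rcases hyp i with ⟨L, hk, hfin, hL⟩ | ⟨hh, hai, hj⟩
  · exfalso
    have h1 := hN.plane hd hdisj L bot_le hk (hfin.toFinset.map ⟨fun p => (i, p), fun _ _ h => by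
      simpa using h⟩) (by simp only [Finset.mem_map]; rintro _ ⟨p, hp, rfl⟩
                          exact (hfin.mem_toFinset.1 hp).2)
      (by simp only [Finset.mem_map]; rintro _ ⟨p, hp, rfl⟩; exact (hfin.mem_toFinset.1 hp).1)
      (by simp only [Finset.mem_map]; rintro _ ⟨p, hp, rfl⟩; exact hfin)
    rw [Finset.sum_map] at h1
    simp only [Function.Embedding.coeFn_mk, Finset.sum_const, nsmul_eq_mul] at h1
    rw [← Set.ncard_eq_toFinset_card _ hfin] at h1
    set k := finrank K L.direction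
    set N : ℚ := (((L : Set (Fin n → K)) ∩ zeroLocus K (P i)).ncard : ℚ)
    have h2 := pow_lt_pow_left₀ hi (mul_nonneg (ha i) hd.le) (n := k) (by omega)
    rw [mul_pow, mul_pow] at h2
    have h3 : 0 ≤ m i ^ k := pow_nonneg (hN.1 i) _
    have h4 : 0 ≤ a i ^ k := pow_nonneg (ha i) _
    have h5 := mul_le_mul_of_nonneg_right hL h3
    have h6 := mul_le_mul_of_nonneg_left h1 h4
    nlinarith
  · obtain ⟨h, hh1, hh2, hh3⟩ := hh.elim id hform
    have hH := REff.of_poly (P0 := ⊥) hP (F := h) (by simpa using hh2) hh3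
      (fun j => if j = i then 1 else 0) (fun j => by
        split_ifs with hj
        · simpa [hj] using hh1
        · simp)
    have hw : 0 < (n : ℚ) + 1 - a i := by linarith
    rcases (hmd i).eq_or_lt with hu | hu
    · refine (hH.smul h0 hP hd.le).mono (by simp) fun j => ?_
      split_ifs with hj
      · simp [hj, hu]
      · have := hpair j i hj
        simp only [Nat.cast_zero, mul_zero]; linarith
    have hu' : 0 < d - m i := by linarith
    set l : ℚ := ((n : ℚ) + 1 - a i) / (d - m i) with hl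
    have hlu : l * (d - m i) = n + 1 - a i := by rw [hl]; field_simp
    have hl0 : 0 ≤ l := by positivity
    have hc : 0 ≤ l * d - (n + 1) := by
      rw [hl, div_mul_eq_mul_div, sub_nonneg, le_div_iff₀ hu']; nlinarith
    refine REff.of_adjoint h0 hP hΔ hl0 ((hH.smul h0 hP hc).mono (by simp) fun j => ?_)
    split_ifs with hji
    · simp only [hji, Nat.cast_one, mul_one]; linarith
    · have h1 := hpair j i hji
      have h2 := hj j hji
      have h3 : l * m j ≤ l * (d - m i) := mul_le_mul_of_nonneg_left (by linarith) hl0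
      simp only [Nat.cast_zero, mul_zero]; linarith

lemma ne_bot_of_dim {n z : ℕ} {Q : Ideal (MvPolynomial (Fin n) K)}
    (h : ringKrullDim (MvPolynomial (Fin n) K ⧸ Q) = z) (hz : z < n) : Q ≠ ⊥ := by
  rintro rfl
  rw [ringKrullDim_eq_of_ringEquiv (RingEquiv.quotientBot _),
    MvPolynomial.ringKrullDim_of_isNoetherianRing, ringKrullDim_eq_zero_of_field] at h
  simp only [zero_add, Nat.card_eq_fintype_card, Fintype.card_fin] at h
  have : n = z := by exact_mod_cast h
  omega

end Pool.Agent.Lib.MP_bc213e_ag
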