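import Mathlib

/-! Growth rates of integer sequences: `liminf` and `limsup` of `h s / s ^ k`. -/

namespace Pool.Agent.Lib.MP_bc213e_ag

open Filter Topology
open scoped ENNReal NNReal

noncomputable def lo (h : ℕ → ℕ) (k : ℕ) : ℝ≥0∞ :=
  liminf (fun s : ℕ => (h s : ℝ≥0∞) / (s : ℝ≥0∞) ^ k) atTop

noncomputable def up (h : ℕ → ℕ) (k : ℕ) : ℝ≥0∞ :=
  limsup (fun s : ℕ => (h s : ℝ≥0∞) / (s : ℝ≥0∞) ^ k) atTop

lemma quot_eq (x s k : ℕ) (hs : 0 < s) :
    (x : ℝ≥0∞) / (s : ℝ≥0∞) ^ k = ENNReal.ofReal ((x : ℝ) / (s : ℝ) ^ k) := by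
  have hs' : (0 : ℝ) < (s : ℝ) ^ k := by positivity
  rw [ENNReal.ofReal_div_of_pos hs', ENNReal.ofReal_pow (by positivity)]
  simp

lemma ev_of_lt_lo {h : ℕ → ℕ} {k : ℕ} {a : ℝ} (ha : ENNReal.ofReal a < lo h k) :
    ∀ᶠ s : ℕ in atTop, a * (s : ℝ) ^ k ≤ h s := by
  have := eventually_lt_of_lt_liminf ha
  filter_upwards [this, eventually_gt_atTop 0] with s hs hs0
  rw [quot_eq _ _ _ hs0] at hs
  have hs' : (0 : ℝ) < (s : ℝ) ^ k := by positivity
  have h2 := (ENNReal.ofReal_le_ofReal_iff (by positivity)).1 hs.le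
  rwa [le_div_iff₀ hs'] at h2

lemma le_lo_of_ev {h : ℕ → ℕ} {k : ℕ} {a : ℝ}
    (ha : ∀ᶠ s : ℕ in atTop, a * (s : ℝ) ^ k ≤ h s) : ENNReal.ofReal a ≤ lo h k := by
  apply le_liminf_of_le
  · isBoundedDefault
  filter_upwards [ha, eventually_gt_atTop 0] with s hs hs0
  rw [quot_eq _ _ _ hs0]
  have hs' : (0 : ℝ) < (s : ℝ) ^ k := by positivity
  exact ENNReal.ofReal_le_ofReal ((le_div_iff₀ hs').2 hs)

lemma ev_of_up_lt {h : ℕ → ℕ} {k : ℕ} {a : ℝ} (ha : up h k < ENNReal.ofReal a) :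
    ∀ᶠ s : ℕ in atTop, (h s : ℝ) ≤ a * (s : ℝ) ^ k := by
  have ha0 : 0 < a := by
    by_contra h0
    rw [ENNReal.ofReal_of_nonpos (not_lt.1 h0)] at ha
    exact absurd ha (by simp)
  have := eventually_lt_of_limsup_lt ha
  filter_upwards [this, eventually_gt_atTop 0] with s hs hs0
  rw [quot_eq _ _ _ hs0] at hs
  have hs' : (0 : ℝ) < (s : ℝ) ^ k := by positivity
  have h2 := (ENNReal.ofReal_le_ofReal_iff ha0.le).1 hs.le
  rwa [div_le_iff₀ hs'] at h2

lemma up_le_of_ev {h : ℕ → ℕ} {k : ℕ} {a : ℝ}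
    (ha : ∀ᶠ s : ℕ in atTop, (h s : ℝ) ≤ a * (s : ℝ) ^ k) : up h k ≤ ENNReal.ofReal a := by
  apply limsup_le_of_le
  · isBoundedDefault
  filter_upwards [ha, eventually_gt_atTop 0] with s hs hs0
  rw [quot_eq _ _ _ hs0]
  have hs' : (0 : ℝ) < (s : ℝ) ^ k := by positivity
  exact ENNReal.ofReal_le_ofReal ((div_le_iff₀ hs').2 hs)

/-- To prove `x ≤ y` in `ℝ≥0∞` it suffices to test reals below `x`. -/
lemma le_of_forall_ofReal_lt {x y : ℝ≥0∞}
    (h : ∀ a : ℝ, 0 ≤ a → ENNReal.ofReal a < x → ENNReal.ofReal a ≤ y) : x ≤ y := by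
  refine le_of_forall_lt_imp_le_of_dense fun z hz => ?_
  have hzt : z ≠ ⊤ := (hz.trans_le le_top).ne
  have := h z.toReal ENNReal.toReal_nonneg (by rwa [ENNReal.ofReal_toReal hzt])
  rwa [ENNReal.ofReal_toReal hzt] at this

lemma le_of_forall_lt_ofReal {x y : ℝ≥0∞}
    (h : ∀ a : ℝ, 0 ≤ a → y < ENNReal.ofReal a → x ≤ ENNReal.ofReal a) : x ≤ y := by
  refine le_of_forall_gt_imp_ge_of_dense fun z hz => ?_
  by_cases hzt : z = ⊤
  · simp [hzt]
  have := h z.toReal ENNReal.toReal_nonneg (by rwa [ENNReal.ofReal_toReal hzt])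
  rwa [ENNReal.ofReal_toReal hzt] at this

lemma lo_le_up (h : ℕ → ℕ) (k : ℕ) : lo h k ≤ up h k := liminf_le_limsup

lemma lo_mono {h g : ℕ → ℕ} (k : ℕ) (hh : ∀ᶠ s in atTop, h s ≤ g s) : lo h k ≤ lo g k := by
  apply liminf_le_liminf
  · filter_upwards [hh] with s hs
    gcongr
  · isBoundedDefault
  · isBoundedDefault

lemma up_mono {h g : ℕ → ℕ} (k : ℕ) (hh : ∀ᶠ s in atTop, h s ≤ g s) : up h k ≤ up g k := by
  apply limsup_le_limsup
  · filter_upwards [hh] with s hs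
    gcongr
  · isBoundedDefault
  · isBoundedDefault

/-- `((s - c) / s) ^ k → 1`. -/
lemma ev_shift (c k : ℕ) {a b : ℝ} (hab : a < b) (hb : 0 ≤ b) :
    ∀ᶠ s : ℕ in atTop, a * (s : ℝ) ^ k ≤ b * ((s - c : ℕ) : ℝ) ^ k := by
  have h1 : Tendsto (fun s : ℕ => b * (1 - (c : ℝ) / s) ^ k) atTop (𝓝 (b * (1 - 0) ^ k)) := by
    apply Tendsto.const_mul
    apply Tendsto.pow
    exact tendsto_const_nhds.sub (tendsto_const_div_atTop_nhds_zero_nat _)
  simp only [sub_zero, one_pow, mul_one] at h1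
  filter_upwards [h1.eventually (lt_mem_nhds hab), eventually_ge_atTop c,
    eventually_gt_atTop 0] with s hs hsc hs0
  have hs' : (0 : ℝ) < s := by exact_mod_cast hs0
  rw [Nat.cast_sub hsc]
  have : ((s : ℝ) - c) ^ k = (1 - (c : ℝ) / s) ^ k * (s : ℝ) ^ k := by
    rw [← mul_pow]; congr 1; field_simp
  rw [this, ← mul_assoc]
  exact mul_le_mul_of_nonneg_right hs.le (by positivity)

lemma lo_shift (h : ℕ → ℕ) (k c : ℕ) : lo h k ≤ lo (fun s => h (s - c)) k := by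
  refine le_of_forall_ofReal_lt fun a ha0 ha => ?_
  obtain ⟨z, hz1, hz2⟩ := exists_between ha
  have hzt : z ≠ ⊤ := (hz2.trans_le le_top).ne
  have hz3 : ENNReal.ofReal z.toReal < lo h k := by rwa [ENNReal.ofReal_toReal hzt]
  have haz : a < z.toReal := by
    rwa [← ENNReal.ofReal_toReal hzt, ENNReal.ofReal_lt_ofReal_iff_of_nonneg ha0] at hz1
  have h1 := (tendsto_sub_atTop_nat c).eventually (ev_of_lt_lo hz3)
  apply le_lo_of_ev
  filter_upwards [h1, ev_shift c k haz ENNReal.toReal_nonneg] with s hs1 hs2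
  exact hs2.trans hs1

lemma lo_add {h h1 h2 : ℕ → ℕ} (k c : ℕ) (hh : ∀ s, c ≤ s → h1 s + h2 (s - c) ≤ h s) :
    lo h1 k + lo h2 k ≤ lo h k := by
  have e1 : lo h1 k ≤ lo h k := lo_mono k (by
    filter_upwards [eventually_ge_atTop c] with s hs
    have := hh s hs; omega)
  have e2 : lo h2 k ≤ lo h k := (lo_shift h2 k c).trans (lo_mono k (by
    filter_upwards [eventually_ge_atTop c] with s hs
    have := hh s hs; omega))
  by_cases hy : lo h1 k = 0
  · simpa [hy] using e2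
  by_cases hz : lo h2 k = 0
  · simpa [hz] using e1
  refine le_of_forall_lt_imp_le_of_dense fun x hx => ?_
  obtain ⟨y, hy', z, hz', hlt⟩ := ENNReal.exists_lt_add_of_lt_add hx hy hz
  have hyt : y ≠ ⊤ := (hy'.trans_le le_top).ne
  have hzt : z ≠ ⊤ := (hz'.trans_le le_top).ne
  have a1 := ev_of_lt_lo (h := h1) (k := k) (a := y.toReal) (by rwa [ENNReal.ofReal_toReal hyt])
  have a2 := ev_of_lt_lo (h := fun s => h2 (s - c)) (k := k) (a := z.toReal)
    (by rw [ENNReal.ofReal_toReal hzt]; exact hz'.trans_le (lo_shift h2 k c))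
  refine hlt.le.trans ?_
  rw [← ENNReal.ofReal_toReal hyt, ← ENNReal.ofReal_toReal hzt,
    ← ENNReal.ofReal_add ENNReal.toReal_nonneg ENNReal.toReal_nonneg]
  apply le_lo_of_ev
  filter_upwards [a1, a2, eventually_ge_atTop c] with s b1 b2 hs
  have : (h1 s : ℝ) + h2 (s - c) ≤ h s := by exact_mod_cast hh s hs
  linarith

lemma up_add {h h1 h2 : ℕ → ℕ} (k : ℕ) (hh : ∀ s, h s ≤ h1 s + h2 s) :
    up h k ≤ up h1 k + up h2 k := by
  refine ENNReal.le_of_forall_pos_le_add fun ε hε hlt => ?_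
  have hyt : up h1 k ≠ ⊤ := (ENNReal.add_lt_top.1 hlt).1.ne
  have hzt : up h2 k ≠ ⊤ := (ENNReal.add_lt_top.1 hlt).2.ne
  have hε' : (0 : ℝ) < ε := hε
  have a1 := ev_of_up_lt (h := h1) (k := k) (a := (up h1 k).toReal + ε / 2) (by
    conv_lhs => rw [← ENNReal.ofReal_toReal hyt]
    rw [ENNReal.ofReal_lt_ofReal_iff_of_nonneg ENNReal.toReal_nonneg]; linarith)
  have a2 := ev_of_up_lt (h := h2) (k := k) (a := (up h2 k).toReal + ε / 2) (by
    conv_lhs => rw [← ENNReal.ofReal_toReal hzt]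
    rw [ENNReal.ofReal_lt_ofReal_iff_of_nonneg ENNReal.toReal_nonneg]; linarith)
  have : up h k ≤ ENNReal.ofReal ((up h1 k).toReal + (up h2 k).toReal + ε) := by
    apply up_le_of_ev
    filter_upwards [a1, a2] with s b1 b2
    have : (h s : ℝ) ≤ h1 s + h2 s := by exact_mod_cast hh s
    linarith
  refine this.trans (le_of_eq ?_)
  rw [ENNReal.ofReal_add (by positivity) hε'.le,
    ENNReal.ofReal_add ENNReal.toReal_nonneg ENNReal.toReal_nonneg,
    ENNReal.ofReal_toReal hyt, ENNReal.ofReal_toReal hzt, ENNReal.ofReal_coe_nnreal]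

lemma pow_sub_pow_le (k : ℕ) {x y : ℝ} (hy : 0 ≤ y) (hxy : y ≤ x) :
    x ^ (k + 1) - y ^ (k + 1) ≤ (k + 1) * (x - y) * x ^ k := by
  induction k with
  | zero => simp
  | succ k ih =>
    have hx : 0 ≤ x := hy.trans hxy
    have h1 : y ^ (k + 1) ≤ x ^ (k + 1) := pow_le_pow_left₀ hy hxy _
    have h2 : x ^ (k + 1 + 1) - y ^ (k + 1 + 1)
        = x * (x ^ (k + 1) - y ^ (k + 1)) + (x - y) * y ^ (k + 1) := by ring
    have h3 := mul_le_mul_of_nonneg_left ih hx
    have h4 := mul_le_mul_of_nonneg_left h1 (sub_nonneg.2 hxy)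
    rw [h2]; push_cast
    have : x * ((k + 1) * (x - y) * x ^ k) = (k + 1) * (x - y) * x ^ (k + 1) := by ring
    nlinarith

lemma le_pow_sub_pow (k : ℕ) {x y : ℝ} (hy : 0 ≤ y) (hxy : y ≤ x) :
    (k + 1) * (x - y) * y ^ k ≤ x ^ (k + 1) - y ^ (k + 1) := by
  induction k with
  | zero => simp
  | succ k ih =>
    have hx : 0 ≤ x := hy.trans hxy
    have h1 : y ^ (k + 1) ≤ x ^ (k + 1) := pow_le_pow_left₀ hy hxy _
    have h2 : x ^ (k + 1 + 1) - y ^ (k + 1 + 1)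
        = y * (x ^ (k + 1) - y ^ (k + 1)) + (x - y) * x ^ (k + 1) := by ring
    have h3 := mul_le_mul_of_nonneg_left ih hy
    have h4 := mul_le_mul_of_nonneg_left h1 (sub_nonneg.2 hxy)
    rw [h2]; push_cast
    have : y * ((k + 1) * (x - y) * y ^ k) = (k + 1) * (x - y) * y ^ (k + 1) := by ring
    nlinarith

/-- A function that does not decrease along steps of length `c` beyond `s0` is bounded below. -/
lemma bdd_of_step {f : ℕ → ℝ} {c s0 : ℕ} (hc : 1 ≤ c)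
    (hf : ∀ s, s0 ≤ s → c ≤ s → f (s - c) ≤ f s) : ∃ C : ℝ, ∀ s, C ≤ f s := by
  obtain ⟨C, hC⟩ : ∃ C : ℝ, ∀ s, s < s0 + c → C ≤ f s := by
    obtain ⟨C, hC⟩ := ((Set.finite_Iio (s0 + c)).image f).bddBelow
    exact ⟨C, fun s hs => hC ⟨s, hs, rfl⟩⟩
  refine ⟨C, fun s => ?_⟩
  induction s using Nat.strong_induction_on with
  | _ s ih =>
    by_cases hs : s < s0 + c
    · exact hC s hs
    · exact (ih (s - c) (by omega)).trans (hf s (by omega) (by omega))

lemma ev_const_le (C : ℝ) {a : ℝ} (ha : 0 < a) (k : ℕ) :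
    ∀ᶠ s : ℕ in atTop, C ≤ a * (s : ℝ) ^ (k + 1) := by
  have : Tendsto (fun s : ℕ => a * (s : ℝ) ^ (k + 1)) atTop atTop :=
    ((tendsto_pow_atTop (Nat.succ_ne_zero k)).comp tendsto_natCast_atTop_atTop).const_mul_atTop ha
  exact this.eventually_ge_atTop C

lemma lo_step {h g : ℕ → ℕ} (k c : ℕ) (hc : 1 ≤ c) (hh : ∀ s, c ≤ s → g s + h (s - c) ≤ h s) :
    lo g k ≤ ((k + 1) * c : ℕ) * lo h (k + 1) := by
  have hc' : (0 : ℝ) < ((k + 1) * c : ℕ) := by positivity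
  refine le_of_forall_ofReal_lt fun a ha0 ha => ?_
  obtain ⟨s0, hs0⟩ := eventually_atTop.1 (ev_of_lt_lo ha)
  set b : ℝ := a / ((k + 1) * c : ℕ) with hb
  have hb0 : 0 ≤ b := by positivity
  have hab : a = b * ((k + 1) * c) := by rw [hb]; push_cast; field_simp
  obtain ⟨C, hC⟩ := bdd_of_step (f := fun s => (h s : ℝ) - b * (s : ℝ) ^ (k + 1)) (s0 := s0) hc
    (by
      intro s h1 h2
      have e1 : (g s : ℝ) + h (s - c) ≤ h s := by exact_mod_cast hh s h2
      have e2 := hs0 s h1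
      have e3 := pow_sub_pow_le k (x := (s : ℝ)) (y := ((s - c : ℕ) : ℝ)) (by positivity)
        (by exact_mod_cast Nat.sub_le s c)
      have e4 : (s : ℝ) - ((s - c : ℕ) : ℝ) = c := by rw [Nat.cast_sub h2]; ring
      rw [e4] at e3
      have e5 := mul_le_mul_of_nonneg_left e3 hb0
      rw [hab] at e2
      nlinarith)
  have key : ENNReal.ofReal b ≤ lo h (k + 1) := by
    refine le_of_forall_ofReal_lt fun b' hb' hlt => ?_
    have hlt' : b' < b := by rwa [ENNReal.ofReal_lt_ofReal_iff_of_nonneg hb'] at hlt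
    apply le_lo_of_ev
    filter_upwards [ev_const_le (-C) (sub_pos.2 hlt') k] with s hs
    have := hC s
    nlinarith
  calc ENNReal.ofReal a = ((k + 1) * c : ℕ) * ENNReal.ofReal b := by
        rw [hab, ENNReal.ofReal_mul hb0, mul_comm]
        congr 1
        rw [← ENNReal.ofReal_natCast]; push_cast; rfl
    _ ≤ _ := by gcongr

lemma up_step {h g : ℕ → ℕ} (k c : ℕ) (hc : 1 ≤ c) (hh : ∀ s, c ≤ s → h s ≤ g s + h (s - c)) :
    ((k + 1) * c : ℕ) * up h (k + 1) ≤ up g k := by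
  have hc' : (0 : ℝ) < ((k + 1) * c : ℕ) := by positivity
  refine le_of_forall_lt_ofReal fun a ha0 ha => ?_
  obtain ⟨z, hz1, hz2⟩ := exists_between ha
  have hzt : z ≠ ⊤ := (hz2.trans_le le_top).ne
  have hz3 : up g k < ENNReal.ofReal z.toReal := by rwa [ENNReal.ofReal_toReal hzt]
  have haz : z.toReal < a := by
    rwa [← ENNReal.ofReal_toReal hzt,
      ENNReal.ofReal_lt_ofReal_iff_of_nonneg ENNReal.toReal_nonneg] at hz2
  obtain ⟨s0, hs0⟩ := eventually_atTop.1 ((ev_of_up_lt hz3).and (ev_shift c k haz ha0))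
  set b : ℝ := a / ((k + 1) * c : ℕ) with hb
  have hb0 : 0 ≤ b := by positivity
  have hab : a = b * ((k + 1) * c) := by rw [hb]; push_cast; field_simp
  obtain ⟨C, hC⟩ := bdd_of_step (f := fun s => b * (s : ℝ) ^ (k + 1) - (h s : ℝ)) (s0 := s0) hc
    (by
      intro s h1 h2
      have e1 : (h s : ℝ) ≤ g s + h (s - c) := by exact_mod_cast hh s h2
      obtain ⟨e2, e2'⟩ := hs0 s h1
      have e3 := le_pow_sub_pow k (x := (s : ℝ)) (y := ((s - c : ℕ) : ℝ)) (by positivity)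
        (by exact_mod_cast Nat.sub_le s c)
      have e4 : (s : ℝ) - ((s - c : ℕ) : ℝ) = c := by rw [Nat.cast_sub h2]; ring
      rw [e4] at e3
      have e5 := mul_le_mul_of_nonneg_left e3 hb0
      rw [hab] at e2'
      nlinarith)
  have key : up h (k + 1) ≤ ENNReal.ofReal b := by
    refine le_of_forall_lt_ofReal fun b' hb' hlt => ?_
    have hlt' : b < b' := by rwa [ENNReal.ofReal_lt_ofReal_iff_of_nonneg hb0] at hlt
    apply up_le_of_ev
    filter_upwards [ev_const_le (-C) (sub_pos.2 hlt') k] with s hs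
    have := hC s
    nlinarith
  calc ((k + 1) * c : ℕ) * up h (k + 1) ≤ ((k + 1) * c : ℕ) * ENNReal.ofReal b := by gcongr
    _ = ENNReal.ofReal a := by
        rw [hab, ENNReal.ofReal_mul hb0, mul_comm]
        congr 1
        rw [← ENNReal.ofReal_natCast]; push_cast; rfl

lemma up_zero_le_lo_zero {h g : ℕ → ℕ} (hg : Monotone g) (hh : ∀ s, h s ≤ g s) :
    up h 0 ≤ lo g 0 := by
  refine (up_mono 0 (Eventually.of_forall hh)).trans ?_
  apply limsup_le_of_le
  · isBoundedDefault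
  filter_upwards with s
  have : ENNReal.ofReal (g s) ≤ lo g 0 := by
    apply le_lo_of_ev
    filter_upwards [eventually_ge_atTop s] with t ht
    simpa using hg ht
  simpa using this

lemma up_eq_zero_of_bdd {h : ℕ → ℕ} (C k : ℕ) (hh : ∀ s, h s ≤ C) : up h (k + 1) = 0 := by
  refine le_antisymm ?_ (by simp)
  refine le_of_forall_lt_ofReal fun a ha0 ha => ?_
  have ha' : 0 < a := by simpa using ha
  apply up_le_of_ev
  filter_upwards [ev_const_le C ha' k] with s hs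
  have : (h s : ℝ) ≤ C := by exact_mod_cast hh s
  linarith

lemma lo_zero_eq_top {h : ℕ → ℕ} (hh : 0 < lo h 1) : lo h 0 = ⊤ := by
  obtain ⟨z, hz1, hz2⟩ := exists_between hh
  have hzt : z ≠ ⊤ := (hz2.trans_le le_top).ne
  have hz3 : ENNReal.ofReal z.toReal < lo h 1 := by rwa [ENNReal.ofReal_toReal hzt]
  have hz0 : 0 < z.toReal := ENNReal.toReal_pos hz1.ne' hzt
  refine top_le_iff.1 (le_of_forall_ofReal_lt fun a _ _ => ?_)
  apply le_lo_of_ev
  filter_upwards [ev_of_lt_lo hz3, ev_const_le a hz0 0] with s h1 h2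
  simp only [pow_zero, mul_one, zero_add] at *
  linarith

end Pool.Agent.Lib.MP_bc213e_ag
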